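import Pool.Agent.Y140.Fib.Defs
import Pool.Agent.W550.B.AddDefs

/-!
# The conditions of the main theorem
-/

open CategoryTheory AlgebraicGeometry

universe u v

namespace Pool.Agent.Y140.Fib

open Pool.Agent.H914 Pool.Agent.H914.VarClass Pool.Agent.H914.VarClass.Obj
  Pool.Agent.H914.WeilCohomology

variable {k : Type u} [Field k] {𝒱 : VarClass k} {ops : CycleOps 𝒱}

/-- The perverse filtration is split by algebraic projectors, and the relative and the base
operator `Λ` are algebraic. -/
def GradedAlgebraic (W : WeilCohomology.{u, v} ops) {Y X : 𝒱.Obj} (f : Y ⟶ X)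
    (P : ℕ → Submodule W.K (W.H Y)) (D : X.Cycles) (E : Y.Cycles) : Prop :=
  AlgebraicallySplit W Y P ∧ RelLamAlgebraic W Y P E ∧ BaseLamAlgebraic W f P D

/-- There are the injective combinations of correspondences on the graded pieces in the relative
and in the base direction. -/
def GradedInjective (W : WeilCohomology.{u, v} ops) (Y : 𝒱.Obj)
    (P : ℕ → Submodule W.K (W.H Y)) : Prop :=
  RelInjective W Y P ∧ BaseInjective W Y P

/-- One cycle with rational coefficients induces the operator `Λ` attached to the divisor `D` on
`Y` for all Weil cohomology theories with the same Betti numbers of `Y` as `W`, and these satisfy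
hard Lefschetz for `D`. -/
def OneCycleForAll (W : WeilCohomology.{u, v} ops) (Y : 𝒱.Obj) (D : Y.Cycles) : Prop :=
  ∃ Z, (Y.prod Y).IsCyc (Y.dim - 1) Z ∧ ∀ W' : WeilCohomology.{u, v} ops,
    (∀ i, W'.betti Y i = W.betti Y i) → HardLefschetz W' Y D ∧ InducesLambda W' Y D Z

end Pool.Agent.Y140.Fib
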