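import Pool.Agent.Y140.Fib.Conv
import Pool.Agent.Y140.Fib.Defs2
import Pool.Agent.H914R2.LefB

/-!
# The Lefschetz standard conjecture and the decomposition theorem
-/

open CategoryTheory AlgebraicGeometry Finset

set_option linter.unusedSectionVars false

universe u v

namespace Pool.Agent.Y140.Fib

open Pool.Agent.H914 Pool.Agent.H447 VarClass Obj WeilCohomology Pool.Agent.W498.Dom
  Pool.Agent.W550.B

variable {k : Type u} [Field k] {𝒱 : VarClass k} {ops : CycleOps 𝒱}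
  {W : WeilCohomology.{u, v} ops} {Y X : 𝒱.Obj} {f : Y ⟶ X} {D : X.Cycles} {E : Y.Cycles}

lemma rop_hop (hD : X.IsCyc 1 D) : ROp W Y 1 (hop W f D) := by
  have := rop_mulLeft (W := W) (ops.pull_mem f hD)
  rwa [W.cl_pull] at this

lemma finrank_symm {c : ℕ} (hc : c ≤ Y.dim) : Module.finrank W.K (W.gr Y (Y.dim - c)) =
    Module.finrank W.K (W.gr Y (Y.dim + c)) := by
  have := betti_symm (X := Y) W (i := Y.dim - c) (by omega)
  rw [show 2 * Y.dim - (Y.dim - c) = Y.dim + c by omega] at this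
  exact this.symm

/-- The traces are rational if the Künneth projectors are algebraic. -/
lemma trace_rational (hπ : ∀ i, ROp W Y 0 (proj (W.isInternal Y) i)) (y : Module.End W.K (W.H Y))
    (hy : ROp W Y 0 y) : ∃ q : ℚ, LinearMap.trace W.K (W.H Y) y = q := by
  have h1 : ∀ i, ∃ q : ℚ, LinearMap.trace W.K (W.H Y) (proj (W.isInternal Y) i * y) = q := by
    intro i
    obtain ⟨q, hq⟩ := rop_str _ (rop_opAlg.cast (rop_opAlg.mul (hπ i) hy) (add_zero 0))
    refine ⟨(-1) ^ i * q, ?_⟩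
    have h2 : par (W.isInternal Y) * proj (W.isInternal Y) i =
        (-1 : W.K) ^ i • proj (W.isInternal Y) i := by
      apply LinearMap.ext
      intro a
      rw [Module.End.mul_apply, par, scal_apply _ _ (proj_mem _ i a), LinearMap.smul_apply]
    rw [← mul_assoc, h2, smul_mul_assoc, map_smul, smul_eq_mul] at hq
    push_cast
    rw [← hq, ← mul_assoc, ← mul_pow, neg_one_mul, neg_neg, one_pow, one_mul]
  choose q hq using h1
  refine ⟨∑ i ∈ range (2 * Y.dim + 1), q i, ?_⟩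
  have h2 : y = ∑ i ∈ range (2 * Y.dim + 1), proj (W.isInternal Y) i * y := by
    rw [← Finset.sum_mul, sum_proj (W.isInternal Y) W_hbd, one_mul]
  conv_lhs => rw [h2]
  rw [map_sum]
  push_cast
  exact Finset.sum_congr rfl (fun i _ => hq i)

lemma exists_cyc_zero {T : Module.End W.K (W.H Y)} (h : ROp W Y 0 T) :
    ∃ z, (Y.prod Y).IsCyc Y.dim z ∧ cycleOp W Y z = T := by
  obtain ⟨Φ, ⟨q, hq, z, hz, hY⟩ | ⟨hd, hY⟩, rfl⟩ := h
  · obtain rfl : q = Y.dim := by omega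
    exact ⟨z, hz, by rw [hY]; rfl⟩
  · exfalso; omega

lemma exists_cyc_neg {T : Module.End W.K (W.H Y)} (h : ROp W Y (-1) T) :
    ∃ z, (Y.prod Y).IsCyc (Y.dim - 1) z ∧ cycleOp W Y z = T := by
  obtain ⟨Φ, ⟨q, hq, z, hz, hY⟩ | ⟨hd, hY⟩, rfl⟩ := h
  · obtain rfl : q = Y.dim - 1 := by omega
    exact ⟨z, hz, by rw [hY]; rfl⟩
  · refine ⟨0, SmVar.IsCyc.zero _ _, ?_⟩
    rw [cycleOp, map_zero, corr_zero, hY]

lemma rop_cyc (hn : 1 ≤ Y.dim) {z : (Y.prod Y).Cycles} (hz : (Y.prod Y).IsCyc (Y.dim - 1) z) :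
    ROp W Y (-1) (cycleOp W Y z) :=
  ⟨fun W => W.corr (W.cl _ z), Or.inl ⟨Y.dim - 1, by omega, z, hz, fun _ => rfl⟩, rfl⟩

section

variable (Q : PerverseDecomposition W f D E) (hD : X.IsCyc 1 D) (hE : Y.IsCyc 1 E)

include Q hD hE

/-- **From the conjecture B to the relative and the base operators.** -/
theorem exists_ops {D' : Y.Cycles} (hD' : IsLefschetzDivisor W Y D') (hB : LefschetzB W Y D') :
    (∃ T, ROp W Y (-1) T ∧ InducesBaseLam (W.gr Y) Q.piece (hop W f D) T) ∧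
    (∃ T, ROp W Y (-1) T ∧ InducesRelLam Q.piece Y.dim (eop W Y E) T) ∧
    ∃ π : ℕ → Module.End W.K (W.H Y), (∀ i, ROp W Y 0 (π i)) ∧ SplitBy Q.piece Y.dim π := by
  have S := setup Q hD hE rfl
  obtain ⟨Φ, hΦ, hLam⟩ := lefschetzB_iff_rop.1 hB
  have hπ : ∀ i, ROp W Y 0 (proj (W.isInternal Y) i) := fun i =>
    rop_opAlg.proj_mem (W.isInternal Y) W_hbd (rop_mulLeft hD'.1) hD'.2 hΦ hLam i
  have hR := rop_opAlg (W := W) (X := Y)
  have hν : ∀ c ≤ Y.dim, ∃ ν, ROp W Y (-c) ν ∧ ∀ a ∈ W.gr Y (Y.dim + c), ν a = 0 → a = 0 := by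
    intro c hc
    have hLh : IsHom (W.gr Y) 2 (LinearMap.mulLeft W.K (W.cl Y D')) := by
      simpa using rop_opAlg.hom (rop_mulLeft (W := W) hD'.1)
    refine ⟨Φ ^ c, hR.cast (hR.pow hΦ c) (by ring), fun a ha h0 => ?_⟩
    obtain ⟨b, hb, hb'⟩ := (hD'.2 (Y.dim - c) (by omega)).2 a
      (by rw [show 2 * Y.dim - (Y.dim - c) = Y.dim + c by omega]; exact ha)
    rw [show Y.dim - (Y.dim - c) = c by omega] at hb'
    rw [← hb', lam_pow_L_pow hLh W_hbd hD'.2 hLam hc hb] at h0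
    rw [← hb', h0, map_zero]
  obtain ⟨G, G', hG, sG, t1, hG', sG', t2⟩ := exists_leads S hR (trace_rational hπ)
    (fun c hc => finrank_symm hc) (rop_hop hD) (rop_mulLeft hE) hπ hν
  -- the base operator
  have hR0 := rl_opAlg S.iP S.bP hR (σ := 0) (gr' := grA S.igr S.iP Y.dim)
    (fun d T hT => isHom_grA_of S (isHom_gr_lead S (hR.hom hT))
      (by rw [zero_mul]; exact isHom_lead S.iP S.bP _ _))
  have hh0 : RL S.iP Y.dim (ROp W Y) 0 1 (hop W f D) :=
    ⟨_, rop_hop hD, (shifts_h S).cast (by ring), by rw [zero_mul]; exact lead_zero_h S⟩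
  have hG0 : RL S.iP Y.dim (ROp W Y) 0 (-1) (lead S.iP Y.dim 0 G) :=
    ⟨G, hG, sG.cast (by ring), by rw [zero_mul]⟩
  rw [← wt_grA S] at t1
  obtain ⟨Φ0, ⟨T, hT, sT, rfl⟩, hLam0⟩ := lam_of_lower hR0 S.igrA S.bgrA hh0 S.hlA hG0 t1
  rw [zero_mul] at sT hLam0
  -- the relative operator
  have hR2 := rl_opAlg S.iP S.bP hR (σ := 2) (gr' := Q.piece)
    (fun d T _ => isHom_lead S.iP S.bP _ _)
  have he2 : RL S.iP Y.dim (ROp W Y) 2 1 (top S.iP Y.dim (eop W Y E)) :=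
    ⟨_, rop_mulLeft hE, (shifts_e S).cast (by ring), by rw [mul_one]; exact lead_two_eq_top S⟩
  have hG2 : RL S.iP Y.dim (ROp W Y) 2 (-1) (lead S.iP Y.dim (-2) G') :=
    ⟨G', hG', sG'.cast (by ring), by rw [show (2 : ℤ) * -1 = -2 by ring]⟩
  obtain ⟨Φ2, hΦ2, hLam2⟩ := lam_of_lower hR2 S.iP S.bP he2 S.rl hG2 t2
  have hproj : ∀ i, RL S.iP Y.dim (ROp W Y) 2 0 (proj S.iP i) := fun i =>
    hR2.proj_mem S.iP S.bP he2 S.rl hΦ2 hLam2 i
  obtain ⟨T', hT', sT', rfl⟩ := hΦ2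
  rw [show (2 : ℤ) * -1 = -2 by ring] at sT' hLam2
  choose Pj hPj sPj lPj using hproj
  refine ⟨⟨T, hT, inducesBaseLam_of S sT hLam0⟩, ⟨T', hT', inducesRelLam_of S sT' hLam2⟩, ?_⟩
  exact exists_split S.iP S.bP hR hPj (fun i => (sPj i).cast (by ring))
    (fun i => by have := lPj i; rwa [mul_zero] at this)

/-- The injectivity of the powers. -/
theorem injective_of_ops {T T' : Module.End W.K (W.H Y)} (hT : ROp W Y (-1) T)
    (hb : InducesBaseLam (W.gr Y) Q.piece (hop W f D) T) (hT' : ROp W Y (-1) T')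
    (hr : InducesRelLam Q.piece Y.dim (eop W Y E) T') :
    RelInjective W Y Q.piece ∧ BaseInjective W Y Q.piece := by
  have S := setup Q hD hE rfl
  have hR := rop_opAlg (W := W) (X := Y)
  have key : ∀ {T : Module.End W.K (W.H Y)}, ROp W Y (-1) T → ∀ c : ℕ,
      ∃ γ ∈ spanCycles W (Y.prod Y) ((Y.dim : ℤ) - c), W.corr γ = T ^ c := by
    intro T hT c
    have h1 : ROp W Y (-c) (T ^ c) := hR.cast (hR.pow hT c) (by ring)
    have h2 : T ^ c ∈ KOp W Y Y (-c) := mem_KS_iff.1 (Submodule.subset_span h1)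
    exact mem_KOp_iff.1 h2
  constructor
  · intro c
    obtain ⟨γ, hγ, hγ'⟩ := key hT' c
    refine ⟨γ, hγ, ?_⟩
    rw [hγ']
    exact rel_injective S hr c
  · intro p c
    obtain ⟨γ, hγ, hγ'⟩ := key hT c
    refine ⟨γ, hγ, ?_⟩
    rw [hγ']
    exact base_injective S hb p c

/-- **From injective combinations to the conjecture B.** -/
theorem lefschetzB_of_injective (hr : RelInjective W Y Q.piece) (hb : BaseInjective W Y Q.piece)
    {D' : Y.Cycles} (hD' : IsLefschetzDivisor W Y D') : LefschetzB W Y D' := by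
  have S := setup Q hD hE rfl
  have hA : OpAlg (W.gr Y) (fun d T => T ∈ KOp W Y Y d) := by
    have h1 : (fun (d : ℤ) (T : Module.End W.K (W.H Y)) => T ∈ KOp W Y Y d) =
        fun d T => T ∈ KS (ROp W Y) d := by
      funext d T
      exact propext mem_KS_iff.symm
    rw [h1]
    exact rop_opAlg.kspan
  apply lefschetzB_of_inj hD'.1 hD'.2
  intro c _
  refine inj_of_leads S hA (fun d c T hT => Submodule.smul_mem _ _ hT) (kop_hop hD)
    (Pool.Agent.W534.kop_L hE) ?_ ?_ c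
  · intro c _
    obtain ⟨γ, hγ, hs, hinj⟩ := hr c
    refine ⟨W.corr γ, mem_KOp_iff.2 ⟨γ, by rwa [← sub_eq_add_neg], rfl⟩, hs, fun a ha h0 => ?_⟩
    have ha' : a ∈ upTo Q.piece ((Y.dim + c : ℕ) : ℤ) := piece_le_upTo le_rfl ha
    have h1 := sub_lead_mem S.iP S.bP hs ha'
    rw [proj_same S.iP ha, h0, sub_zero] at h1
    have h2 := hinj a (by push_cast at ha'; exact ha') trivial (upTo_mono (by push_cast; omega) h1)
    exact eq_zero_of_upTo S.iP S.bP ha (by push_cast; omega) h2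
  · intro p c
    obtain ⟨γ, hγ, hs, hinj⟩ := hb p c
    refine ⟨W.corr γ, mem_KOp_iff.2 ⟨γ, by rwa [← sub_eq_add_neg], rfl⟩, hs, fun a ha h0 => ?_⟩
    have ha' : a ∈ upTo Q.piece p := piece_le_upTo le_rfl ha.1
    have h1 := sub_lead_mem S.iP S.bP hs ha'
    rw [proj_same S.iP ha.1, h0, sub_zero] at h1
    have h2 := hinj a ha' ha.2 (upTo_mono (by omega) h1)
    exact eq_zero_of_upTo S.iP S.bP ha.1 (by omega) h2

/-- **The Lefschetz standard conjecture and the decomposition theorem.** -/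
theorem main {D' : Y.Cycles} (hD' : IsLefschetzDivisor W Y D') (hn : 1 ≤ Y.dim) :
    List.TFAE [LefschetzB W Y D', GradedAlgebraic W f Q.piece D E, GradedInjective W Y Q.piece,
      OneCycleForAll W Y D'] := by
  tfae_have 1 → 2 := by
    intro hB
    obtain ⟨⟨T, hT, hT1⟩, ⟨T', hT', hT1'⟩, π, hπ, hπ'⟩ := exists_ops Q hD hE hD' hB
    obtain ⟨z, hz, rfl⟩ := exists_cyc_neg hT
    obtain ⟨z', hz', rfl⟩ := exists_cyc_neg hT'
    choose y hy hyπ using fun i => exists_cyc_zero (hπ i)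
    refine ⟨⟨y, hy, ?_⟩, ⟨z', hz', hT1'⟩, ⟨z, hz, hT1⟩⟩
    have h1 : (fun p => cycleOp W Y (y p)) = π := funext hyπ
    rw [h1]
    exact hπ'
  tfae_have 2 → 3 := by
    rintro ⟨-, ⟨z', hz', hr⟩, ⟨z, hz, hb⟩⟩
    exact injective_of_ops Q hD hE (rop_cyc hn hz) hb (rop_cyc hn hz') hr
  tfae_have 3 → 1 := fun h => lefschetzB_of_injective Q hD hE h.1 h.2 hD'
  tfae_have 1 → 4 := by
    intro hB
    obtain ⟨Z, hZ, hW⟩ := indep_weil hn D' hD'.1 W hD'.2 hB
    exact ⟨Z, hZ, fun W' hb => ((hW W').out 2 1).1 hb⟩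
  tfae_have 4 → 1 := by
    rintro ⟨Z, hZ, hW⟩
    exact ⟨Z, hZ, (hW W (fun _ => rfl)).2⟩
  tfae_finish

end

end Pool.Agent.Y140.Fib
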