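import Pool.Agent.W498.Dom.Defs

/-!
# The perverse filtration and the relative and base Lambda operators: definitions
-/

open CategoryTheory AlgebraicGeometry

universe u v

namespace Pool.Agent.Y140.Fib

section Alg

variable {K : Type*} [Field K] {V : Type*} [AddCommGroup V] [Module K V]

/-- The sum of the subspaces `P q` with `q ≤ a`. -/
def upTo (P : ℕ → Submodule K V) (a : ℤ) : Submodule K V := ⨆ q : ℕ, ⨆ _ : (q : ℤ) ≤ a, P q

/-- The operator `T` maps the step `a` of the filtration to the step `a + δ`, for all `a`. -/
def Shifts (P : ℕ → Submodule K V) (δ : ℤ) (T : Module.End K V) : Prop :=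
  ∀ a : ℤ, ∀ v ∈ upTo P a, T v ∈ upTo P (a + δ)

/-- The operator `Φ` lowers the filtration by two, and on the associated graded space (centred in
degree `m`) it induces the operator `Λ` attached to `e`: it kills the primitive elements, and it
sends `e ^ (j + 1) a` to `e ^ j a` for `a` primitive of degree `i ≤ m` and `j + 1 ≤ m - i`. -/
def InducesRelLam (P : ℕ → Submodule K V) (m : ℕ) (e Φ : Module.End K V) : Prop :=
  Shifts P (-2) Φ ∧ ∀ i ≤ m, ∀ a ∈ upTo P i, (e ^ (m - i + 1)) a ∈ upTo P (2 * m - i + 1) →
    Φ a ∈ upTo P (i - 3) ∧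
      ∀ j < m - i, Φ ((e ^ (j + 1)) a) - (e ^ j) a ∈ upTo P (i + 2 * j - 1)

/-- The operator `Φ` preserves the filtration, and on the part of degree `p` of the associated
graded space, which is graded by `gr` with centre `p`, it induces the operator `Λ` attached to `h`:
it kills the primitive elements, and it sends `h ^ (i + 1) a` to `h ^ i a` for `a` primitive of
degree `j ≤ p` and `i + 1 ≤ p - j`. -/
def InducesBaseLam (gr P : ℕ → Submodule K V) (h Φ : Module.End K V) : Prop :=
  Shifts P 0 Φ ∧ ∀ p j : ℕ, j ≤ p → ∀ a ∈ upTo P p, a ∈ gr j →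
    (h ^ (p - j + 1)) a ∈ upTo P (p - 1) → Φ a ∈ upTo P (p - 1) ∧
      ∀ i < p - j, Φ ((h ^ (i + 1)) a) - (h ^ i) a ∈ upTo P (p - 1)

/-- The operators `π p` are orthogonal projectors with sum one, and the step `a` of the filtration
is the sum of the images of the `π p` with `p ≤ a`. -/
def SplitBy (P : ℕ → Submodule K V) (m : ℕ) (π : ℕ → Module.End K V) : Prop :=
  (∀ p q, π p * π q = if p = q then π p else 0) ∧ ∑ p ∈ Finset.range (2 * m + 1), π p = 1 ∧
    ∀ a : ℤ, upTo P a = upTo (fun p => LinearMap.range (π p)) a

/-- The operator `T` shifts the filtration by `δ`, and it is injective on the image of `U` in the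
piece of degree `p` of the associated graded space. -/
def GrInjective (P : ℕ → Submodule K V) (δ p : ℤ) (U : Submodule K V) (T : Module.End K V) : Prop :=
  Shifts P δ T ∧ ∀ v ∈ upTo P p, v ∈ U → T v ∈ upTo P (p + δ - 1) → v ∈ upTo P (p - 1)

end Alg

open Pool.Agent.H914 Pool.Agent.H914.VarClass Pool.Agent.H914.VarClass.Obj
  Pool.Agent.H914.WeilCohomology Pool.Agent.W498.Dom

variable {k : Type u} [Field k] {𝒱 : VarClass k} {ops : CycleOps 𝒱}

/-- The operator on the cohomology of `Y` induced by a cycle on `Y × Y` with rational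
coefficients. -/
noncomputable def cycleOp (W : WeilCohomology.{u, v} ops) (Y : 𝒱.Obj) (z : (Y.prod Y).Cycles) :
    Module.End W.K (W.H Y) := W.corr (W.cl (Y.prod Y) z)

/-- The perverse filtration is split by algebraic projectors: there are cycles of codimension
`dim Y` on `Y × Y`, with rational coefficients, which induce projectors splitting it. -/
def AlgebraicallySplit (W : WeilCohomology.{u, v} ops) (Y : 𝒱.Obj)
    (P : ℕ → Submodule W.K (W.H Y)) : Prop :=
  ∃ z : ℕ → (Y.prod Y).Cycles, (∀ p, (Y.prod Y).IsCyc Y.dim (z p)) ∧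
    SplitBy P Y.dim (fun p => cycleOp W Y (z p))

/-- The relative operator `Λ`, attached to the divisor `E` on `Y`, is algebraic: a cycle of
codimension `dim Y - 1` on `Y × Y` with rational coefficients lowers the perverse filtration by two
and induces the operator `Λ` of relative hard Lefschetz on the associated graded space. -/
def RelLamAlgebraic (W : WeilCohomology.{u, v} ops) (Y : 𝒱.Obj)
    (P : ℕ → Submodule W.K (W.H Y)) (E : Y.Cycles) : Prop :=
  ∃ z, (Y.prod Y).IsCyc (Y.dim - 1) z ∧
    InducesRelLam P Y.dim (LinearMap.mulLeft W.K (W.cl Y E)) (cycleOp W Y z)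

/-- The base operator `Λ`, attached to the divisor `D` on `X`, is algebraic: a cycle of codimension
`dim Y - 1` on `Y × Y` with rational coefficients preserves the perverse filtration and induces,
for all `p`, the operator `Λ` of hard Lefschetz for the cohomology of `X` with coefficients in the
perverse sheaf of degree `p`. -/
def BaseLamAlgebraic (W : WeilCohomology.{u, v} ops) {Y X : 𝒱.Obj} (f : Y ⟶ X)
    (P : ℕ → Submodule W.K (W.H Y)) (D : X.Cycles) : Prop :=
  ∃ z, (Y.prod Y).IsCyc (Y.dim - 1) z ∧
    InducesBaseLam (W.gr Y) P (LinearMap.mulLeft W.K (W.map f (W.cl X D))) (cycleOp W Y z)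

/-- For every `c` there is a linear combination, with coefficients in the field `K` of the
cohomology theory, of algebraic correspondences of degree `-c` which lowers the perverse filtration
by `2 c` and is injective on the graded piece of degree `dim Y + c`. -/
def RelInjective (W : WeilCohomology.{u, v} ops) (Y : 𝒱.Obj)
    (P : ℕ → Submodule W.K (W.H Y)) : Prop :=
  ∀ c : ℕ, ∃ γ ∈ spanCycles W (Y.prod Y) ((Y.dim : ℤ) - c),
    GrInjective P (-(2 * c)) (Y.dim + c) ⊤ (W.corr γ)

/-- For all `p` and `c` there is a linear combination, with coefficients in the field `K` of the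
cohomology theory, of algebraic correspondences of degree `-c` which preserves the perverse
filtration and is injective on the part of cohomological degree `p + c` of the graded piece of
degree `p`. -/
def BaseInjective (W : WeilCohomology.{u, v} ops) (Y : 𝒱.Obj)
    (P : ℕ → Submodule W.K (W.H Y)) : Prop :=
  ∀ p c : ℕ, ∃ γ ∈ spanCycles W (Y.prod Y) ((Y.dim : ℤ) - c),
    GrInjective P 0 p (W.gr Y (p + c)) (W.corr γ)

end Pool.Agent.Y140.Fib
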