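import Pool.Agent.Y140.Fib.Split

/-!
# Leading terms and the operators on the associated graded space
-/

open Finset Polynomial

set_option linter.unusedSectionVars false

namespace Pool.Agent.Y140.Fib

open Pool.Agent.H914 Pool.Agent.H447 Pool.Agent.W498.Dom

variable {K : Type*} [Field K] [CharZero K] {V : Type*} [AddCommGroup V] [Module K V]

section

variable {P : ℕ → Submodule K V} (iP : DirectSum.IsInternal P) {m : ℕ}
  (bP : ∀ i, 2 * m + 1 ≤ i → P i = ⊥)

include iP bP

lemma sub_proj_mem {i : ℕ} {a : V} (ha : a ∈ upTo P i) : a - proj iP i a ∈ upTo P (i - 1) := by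
  rw [mem_upTo iP bP] at ha ⊢
  intro q hq
  rw [map_sub]
  by_cases hqi : q = i
  · rw [hqi, proj_same iP (proj_mem iP i a), sub_self]
  · rw [ha q (by omega), proj_ne iP (proj_mem iP i a) (Ne.symm hqi), sub_zero]

/-- The leading term computes the operator modulo lower steps. -/
lemma sub_lead_mem {δ : ℤ} {T : Module.End K V} (hT : Shifts P δ T) {i : ℕ} {a : V}
    (ha : a ∈ upTo P i) : T a - lead iP m δ T (proj iP i a) ∈ upTo P (i + δ - 1) := by
  have h1 := lead_sub_mem iP bP hT (proj_mem iP i a)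
  have h2 := hT _ _ (sub_proj_mem iP bP ha)
  have h3 : T a - lead iP m δ T (proj iP i a) = T (a - proj iP i a) +
      (T (proj iP i a) - lead iP m δ T (proj iP i a)) := by rw [map_sub]; abel
  rw [h3]
  exact Submodule.add_mem _ (upTo_mono (by omega) h2) h1

lemma eq_zero_of_upTo {i : ℕ} {a : V} (ha : a ∈ P i) {b : ℤ} (hb : b < i) (h : a ∈ upTo P b) :
    a = 0 := by
  have := (mem_upTo iP bP).1 h i hb
  rwa [proj_same iP ha] at this

end

variable {gr P : ℕ → Submodule K V} {m : ℕ} {h e : Module.End K V} (S : Setup gr P m h e)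

include S

lemma e_pow_sub_mem (k : ℕ) {i : ℕ} {a : V} (ha : a ∈ upTo P i) :
    (e ^ k) a - (top S.iP m e ^ k) (proj S.iP i a) ∈ upTo P (i + 2 * k - 1) := by
  have h1 := sub_lead_mem S.iP S.bP ((shifts_e S).pow k) ha
  rw [lead_pow S.iP S.bP (shifts_e S) k, lead_two_eq_top S] at h1
  exact upTo_mono (by omega) h1

lemma top_pow_mem (k : ℕ) {i : ℕ} {a : V} (ha : a ∈ P i) :
    (top S.iP m e ^ k) a ∈ P (i + 2 * k) := pow_L_mem S.isHomP_top ha k

lemma inducesRelLam_of {T : Module.End K V} (hT : Shifts P (-2) T)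
    (hLam : IsLam P m (top S.iP m e) (lead S.iP m (-2) T)) : InducesRelLam P m e T := by
  refine ⟨hT, fun i hi a ha hp => ?_⟩
  set b := proj S.iP i a with hb
  have hbP : b ∈ P i := proj_mem S.iP i a
  have h1 : (top S.iP m e ^ (m - i + 1)) b = 0 := by
    have h2 := e_pow_sub_mem S (m - i + 1) ha
    have h3 : (top S.iP m e ^ (m - i + 1)) b ∈ upTo P (2 * m - i + 1) := by
      have h4 : (top S.iP m e ^ (m - i + 1)) b = (e ^ (m - i + 1)) a -
          ((e ^ (m - i + 1)) a - (top S.iP m e ^ (m - i + 1)) b) := by abel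
      rw [h4]
      exact Submodule.sub_mem _ hp (upTo_mono (by omega) h2)
    exact eq_zero_of_upTo S.iP S.bP (top_pow_mem S _ hbP) (by omega) h3
  obtain ⟨l1, l2⟩ := hLam i hi b hbP h1
  constructor
  · have h2 := sub_lead_mem S.iP S.bP hT ha
    rw [l1, sub_zero] at h2
    exact upTo_mono (by omega) h2
  · intro j hj
    have h2 := e_pow_sub_mem S (j + 1) ha
    have h3 := hT _ _ h2
    have h4 := lead_sub_mem S.iP S.bP hT (top_pow_mem S (j + 1) hbP)
    have h5 := e_pow_sub_mem S j ha
    rw [l2 j hj] at h4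
    have h6 : T ((e ^ (j + 1)) a) - (e ^ j) a =
        T ((e ^ (j + 1)) a - (top S.iP m e ^ (j + 1)) b) +
        (T ((top S.iP m e ^ (j + 1)) b) - (top S.iP m e ^ j) b) -
        ((e ^ j) a - (top S.iP m e ^ j) b) := by
      rw [map_sub]; abel
    rw [h6]
    refine Submodule.sub_mem _ (Submodule.add_mem _ (upTo_mono ?_ h3) (upTo_mono ?_ h4))
      (upTo_mono ?_ h5)
    · push_cast; omega
    · push_cast; omega
    · omega

lemma isLam_of_inducesRelLam {T : Module.End K V} (hT : InducesRelLam P m e T) :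
    IsLam P m (top S.iP m e) (lead S.iP m (-2) T) := by
  obtain ⟨hs, hT⟩ := hT
  intro i hi a ha hp
  have ha' : a ∈ upTo P i := piece_le_upTo le_rfl ha
  have hpr : proj S.iP i a = a := proj_same S.iP ha
  have h1 : (e ^ (m - i + 1)) a ∈ upTo P (2 * m - i + 1) := by
    have h2 := e_pow_sub_mem S (m - i + 1) ha'
    rw [hpr, hp, sub_zero] at h2
    exact upTo_mono (by omega) h2
  obtain ⟨l1, l2⟩ := hT i hi a ha' h1
  constructor
  · by_cases h2 : 2 ≤ i
    · rw [lead_apply S.iP S.bP (q := i - 2) (by omega) ha]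
      exact (mem_upTo S.iP S.bP).1 l1 _ (by omega)
    · exact lead_apply_neg S.iP S.bP (by omega) ha
  · intro j hj
    have h2 := l2 j hj
    have h3 := hs _ _ (e_pow_sub_mem S (j + 1) ha')
    have h4 := lead_sub_mem S.iP S.bP hs (top_pow_mem S (j + 1) ha)
    have h5 := e_pow_sub_mem S j ha'
    rw [hpr] at h3 h5
    rw [← sub_eq_zero]
    have hmem : lead S.iP m (-2) T ((top S.iP m e ^ (j + 1)) a) - (top S.iP m e ^ j) a ∈
        P (i + 2 * j) := by
      apply Submodule.sub_mem _ _ (top_pow_mem S j ha)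
      rw [lead_apply S.iP S.bP (q := i + 2 * j) (by push_cast; ring) (top_pow_mem S (j + 1) ha)]
      exact proj_mem S.iP _ _
    apply eq_zero_of_upTo S.iP S.bP hmem (b := i + 2 * j - 1) (by push_cast; omega)
    have h6 : lead S.iP m (-2) T ((top S.iP m e ^ (j + 1)) a) - (top S.iP m e ^ j) a =
        (T ((e ^ (j + 1)) a) - (e ^ j) a) -
        T ((e ^ (j + 1)) a - (top S.iP m e ^ (j + 1)) a) -
        (T ((top S.iP m e ^ (j + 1)) a) - lead S.iP m (-2) T ((top S.iP m e ^ (j + 1)) a)) +
        ((e ^ j) a - (top S.iP m e ^ j) a) := by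
      rw [map_sub]; abel
    rw [h6]
    refine Submodule.add_mem _ (Submodule.sub_mem _ (Submodule.sub_mem _ (upTo_mono ?_ h2)
      (upTo_mono ?_ h3)) (upTo_mono ?_ h4)) (upTo_mono ?_ h5)
    · omega
    · push_cast; omega
    · push_cast; omega
    · omega

lemma h_pow_proj (k i : ℕ) (a : V) : (h ^ k) (proj S.iP i a) = proj S.iP i ((h ^ k) a) :=
  S.pow_h_projP i k a

lemma h_pow_mem (k : ℕ) {i : ℕ} {a : V} (ha : a ∈ P i) : (h ^ k) a ∈ P i := by
  have h1 := h_pow_proj S k i a
  rw [proj_same S.iP ha] at h1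
  rw [h1]; exact proj_mem S.iP i _

lemma inducesBaseLam_of [Module.Finite K V] {T : Module.End K V} (hT : Shifts P 0 T)
    (hLam : IsLam (grA S.igr S.iP m) (2 * m) h (lead S.iP m 0 T)) : InducesBaseLam gr P h T := by
  refine ⟨hT, fun p j hj a ha haj hp => ?_⟩
  set b := proj S.iP p a with hb
  have hbP : b ∈ P p := proj_mem S.iP p a
  have hbj : b ∈ gr j := S.projP_gr haj p
  have hk : ∀ k, (h ^ k) b = proj S.iP p ((h ^ k) a) := fun k => h_pow_proj S k p a
  have h1 : (h ^ (p - j + 1)) b = 0 := by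
    rw [hk]
    exact (mem_upTo S.iP S.bP).1 hp p (by omega)
  have hlam : lead S.iP m 0 T b = 0 ∧ ∀ i < p - j, lead S.iP m 0 T ((h ^ (i + 1)) b) =
      (h ^ i) b := by
    by_cases hpm : p ≤ 2 * m
    · have h2 : b ∈ grA S.igr S.iP m (2 * m - (p - j)) := by
        rw [S.mem_grA, S.Ha_apply hbP hbj]
        congr 1
        have h3 : ((2 * m - (p - j) : ℕ) : ℤ) - (2 * m : ℕ) = (j : ℤ) - p := by omega
        rw [h3]
        push_cast; ring
      have h3 := hLam (2 * m - (p - j)) (by omega) b h2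
      rw [show 2 * m - (2 * m - (p - j)) = p - j by omega] at h3
      exact h3 h1
    · have h2 : b = 0 := by
        rw [S.bP p (by omega)] at hbP
        exact (Submodule.mem_bot _).1 hbP
      rw [h2]
      simp
  constructor
  · have h2 := sub_lead_mem S.iP S.bP hT ha
    rw [← hb, hlam.1, sub_zero] at h2
    exact upTo_mono (by omega) h2
  · intro i hi
    have ha1 : ∀ k, (h ^ k) a ∈ upTo P p := by
      intro k
      have := (shifts_h S).pow k _ _ ha
      exact upTo_mono (by omega) this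
    have h2 := sub_lead_mem S.iP S.bP hT (ha1 (i + 1))
    rw [← hk, hlam.2 i hi, hk] at h2
    have h3 := sub_proj_mem S.iP S.bP (ha1 i)
    have h4 : T ((h ^ (i + 1)) a) - (h ^ i) a =
        (T ((h ^ (i + 1)) a) - proj S.iP p ((h ^ i) a)) -
        ((h ^ i) a - proj S.iP p ((h ^ i) a)) := by abel
    rw [h4]
    exact Submodule.sub_mem _ (upTo_mono (by omega) h2) h3

lemma isLam_of_inducesBaseLam {T : Module.End K V} (hT : InducesBaseLam gr P h T) (p : ℕ) :
    IsLam (fun j => P p ⊓ gr j) p h (lead S.iP m 0 T) := by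
  obtain ⟨hs, hT⟩ := hT
  rintro i hi a ⟨haP, hai⟩ hp
  have ha' : a ∈ upTo P p := piece_le_upTo le_rfl haP
  obtain ⟨l1, l2⟩ := hT p i hi a ha' hai (by rw [hp]; exact Submodule.zero_mem _)
  constructor
  · rw [lead_apply S.iP S.bP (q := p) (by ring) haP]
    exact (mem_upTo S.iP S.bP).1 l1 p (by omega)
  · intro j hj
    rw [lead_apply S.iP S.bP (q := p) (by ring) (h_pow_mem S _ haP)]
    have h1 := (mem_upTo S.iP S.bP).1 (l2 j hj) p (by omega)
    rw [map_sub, proj_same S.iP (h_pow_mem S j haP), sub_eq_zero] at h1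
    exact h1

/-- The powers of the relative operator are injective on the graded space. -/
lemma rel_injective {T : Module.End K V} (hT : InducesRelLam P m e T) (c : ℕ) :
    GrInjective P (-(2 * c)) (m + c) ⊤ (T ^ c) := by
  have hLam := isLam_of_inducesRelLam S hT
  have hs : Shifts P (c * (-2)) (T ^ c) := hT.1.pow c
  refine ⟨hs.cast (by ring), fun v hv _ h0 => ?_⟩
  have hv' : v ∈ upTo P ((m + c : ℕ) : ℤ) := by push_cast; exact hv
  have h1 := sub_lead_mem S.iP S.bP hs hv'
  rw [lead_pow S.iP S.bP hT.1] at h1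
  set b := proj S.iP (m + c) v with hb
  have hbP : b ∈ P (m + c) := proj_mem S.iP _ v
  have hb0 : b = 0 := by
    by_cases hc : c ≤ m
    · obtain ⟨b', hb', hbb⟩ := (S.rl (m - c) (by omega)).2 b (by
        rw [show 2 * m - (m - c) = m + c by omega]; exact hbP)
      rw [show m - (m - c) = c by omega] at hbb
      have h2 : (lead S.iP m (-2) T ^ c) b = b' := by
        rw [← hbb]
        exact lam_pow_L_pow S.isHomP_top S.bP S.rl hLam hc hb'
      rw [h2] at h1
      have h3 : b' ∈ upTo P ((m : ℤ) - c - 1) := by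
        have h4 : b' = (T ^ c) v - ((T ^ c) v - b') := by abel
        rw [h4]
        exact Submodule.sub_mem _ (upTo_mono (by omega) h0) (upTo_mono (by push_cast; omega) h1)
      have h4 : b' = 0 := eq_zero_of_upTo S.iP S.bP hb' (by omega) h3
      rw [← hbb, h4, map_zero]
    · rw [S.bP _ (by omega)] at hbP
      exact (Submodule.mem_bot _).1 hbP
  have h2 := sub_proj_mem S.iP S.bP hv'
  rw [← hb, hb0, sub_zero] at h2
  exact upTo_mono (by push_cast; omega) h2

/-- The powers of the base operator are injective on the graded space. -/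
lemma base_injective {T : Module.End K V} (hT : InducesBaseLam gr P h T) (p c : ℕ) :
    GrInjective P 0 p (gr (p + c)) (T ^ c) := by
  have hLam := isLam_of_inducesBaseLam S hT p
  have hs : Shifts P (c * 0) (T ^ c) := hT.1.pow c
  refine ⟨hs.cast (by ring), fun v hv hvj h0 => ?_⟩
  have h1 := sub_lead_mem S.iP S.bP hs hv
  rw [lead_pow S.iP S.bP hT.1] at h1
  set b := proj S.iP p v with hb
  have hbP : b ∈ P p := proj_mem S.iP _ v
  have hbj : b ∈ gr (p + c) := S.projP_gr hvj p
  have hb0 : b = 0 := by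
    by_cases hc : c ≤ p
    · obtain ⟨b', hb', hbb⟩ := (S.hl p (p - c) (by omega)).2 b (by
        rw [show 2 * p - (p - c) = p + c by omega]; exact ⟨hbP, hbj⟩)
      rw [show p - (p - c) = c by omega] at hbb
      have hh : IsHom (fun j => P p ⊓ gr j) 2 h := by
        intro i a ha
        by_cases hi : 0 ≤ i
        · lift i to ℕ using hi
          rw [grZ_natCast] at ha
          rw [show (i : ℤ) + 2 = ((i + 2 : ℕ) : ℤ) by push_cast; ring, grZ_natCast]
          refine ⟨S.hP p a ha.1, ?_⟩
          have h2 := S.hgr i a (by rw [grZ_natCast]; exact ha.2)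
          rwa [show (i : ℤ) + 2 = ((i + 2 : ℕ) : ℤ) by push_cast; ring, grZ_natCast] at h2
        · rw [grZ_of_neg (by omega)] at ha
          rw [(Submodule.mem_bot _).1 ha, map_zero]
          exact Submodule.zero_mem _
      have h2 : (lead S.iP m 0 T ^ c) b = b' := by
        rw [← hbb]
        exact lam_pow_L_pow hh (fun i hi => S.van p i (by omega)) (S.hl p) hLam hc hb'
      rw [h2] at h1
      have h3 : b' ∈ upTo P ((p : ℤ) - 1) := by
        have h4 : b' = (T ^ c) v - ((T ^ c) v - b') := by abel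
        rw [h4]
        exact Submodule.sub_mem _ (upTo_mono (by omega) h0) (upTo_mono (by omega) h1)
      have h4 : b' = 0 := eq_zero_of_upTo S.iP S.bP hb'.1 (by omega) h3
      rw [← hbb, h4, map_zero]
    · have h2 : b ∈ P p ⊓ gr (p + c) := ⟨hbP, hbj⟩
      rw [S.van p _ (by omega)] at h2
      exact (Submodule.mem_bot _).1 h2
  have h2 := sub_proj_mem S.iP S.bP hv
  rwa [← hb, hb0, sub_zero] at h2

end Pool.Agent.Y140.Fib
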