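import Pool.Agent.Y140.Fib.Filt

/-!
# The algebra of the leading terms
-/

open Finset

set_option linter.unusedSectionVars false

namespace Pool.Agent.Y140.Fib

open Pool.Agent.H914 Pool.Agent.H447 Pool.Agent.W498.Dom

variable {K : Type*} [Field K] [CharZero K] {V : Type*} [AddCommGroup V] [Module K V]
  {P : ℕ → Submodule K V} (iP : DirectSum.IsInternal P) {m : ℕ}
  (bP : ∀ i, 2 * m + 1 ≤ i → P i = ⊥)

/-- The leading terms of slope `σ` of the operators in `A`. -/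
def RL {P : ℕ → Submodule K V} (iP : DirectSum.IsInternal P) (m : ℕ)
    (A : ℤ → Module.End K V → Prop) (σ : ℤ) (d : ℤ) (T₀ : Module.End K V) : Prop :=
  ∃ T, A d T ∧ Shifts P (σ * d) T ∧ lead iP m (σ * d) T = T₀

include bP

lemma rl_opAlg {gr gr' : ℕ → Submodule K V} {A : ℤ → Module.End K V → Prop} (hA : OpAlg gr A)
    {σ : ℤ} (hhom : ∀ d T, A d T → IsHom gr' (2 * d) (lead iP m (σ * d) T)) :
    OpAlg gr' (RL iP m A σ) where
  one := ⟨1, hA.one, by simpa using shifts_one, by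
    rw [mul_zero]; exact lead_of_isHom iP bP isHom_one⟩
  zero d := ⟨0, hA.zero d, shifts_zero _, lead_zero iP _⟩
  add := by
    rintro d _ _ ⟨T, hT, hs, rfl⟩ ⟨U, hU, hs', rfl⟩
    exact ⟨T + U, hA.add hT hU, hs.add hs', lead_add iP _ _ _⟩
  smul := by
    rintro q d _ ⟨T, hT, hs, rfl⟩
    exact ⟨(q : K) • T, hA.smul q hT, hs.smul _, lead_smul iP _ _ _⟩
  mul := by
    rintro d e _ _ ⟨T, hT, hs, rfl⟩ ⟨U, hU, hs', rfl⟩
    refine ⟨T * U, hA.mul hT hU, (hs.mul hs').cast (by ring), ?_⟩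
    rw [mul_add]
    exact lead_mul iP bP hs hs'
  hom := by
    rintro d _ ⟨T, hT, -, rfl⟩
    exact hhom d T hT

omit bP in
lemma rl_of_ks {A : ℤ → Module.End K V → Prop} {σ d : ℤ} (hz : ∀ d, A d 0)
    (hadd : ∀ d T U, A d T → A d U → A d (T + U)) (hsm : ∀ d (c : K) T, A d T → A d (c • T))
    {T₀ : Module.End K V} (h : T₀ ∈ KS (RL iP m A σ) d) : RL iP m A σ d T₀ := by
  induction h using Submodule.span_induction with
  | mem x hx => exact hx
  | zero => exact ⟨0, hz d, shifts_zero _, lead_zero iP _⟩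
  | add x y _ _ hx hy =>
    obtain ⟨T, hT, hs, rfl⟩ := hx
    obtain ⟨U, hU, hs', rfl⟩ := hy
    exact ⟨T + U, hadd _ _ _ hT hU, hs.add hs', lead_add iP _ _ _⟩
  | smul c x _ hx =>
    obtain ⟨T, hT, hs, rfl⟩ := hx
    exact ⟨c • T, hsm _ _ _ hT, hs.smul _, lead_smul iP _ _ _⟩

/-- The lowering operator of a leading term from injective leading terms. -/
theorem exists_lead_lower [Module.Finite K V] {gr gr' : ℕ → Submodule K V}
    {A : ℤ → Module.End K V → Prop} (hA : OpAlg gr A)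
    (hsm : ∀ d (c : K) T, A d T → A d (c • T)) {σ : ℤ}
    (hhom : ∀ d T, A d T → IsHom gr' (2 * d) (lead iP m (σ * d) T)) {n : ℕ}
    (igr' : DirectSum.IsInternal gr') (bgr' : ∀ i, 2 * n + 1 ≤ i → gr' i = ⊥)
    {L : Module.End K V} (hL : A 1 L) (hLs : Shifts P σ L)
    (hHL : HardLef gr' n (lead iP m σ L))
    (hν : ∀ c ≤ n, ∃ ν, A (-c) ν ∧ Shifts P (-(σ * c)) ν ∧
      ∀ a ∈ gr' (n + c), lead iP m (-(σ * c)) ν a = 0 → a = 0) :
    ∃ T, A (-1) T ∧ Shifts P (-σ) T ∧ Sl2 (wt igr' n) (lead iP m σ L) (lead iP m (-σ) T) := by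
  have hR := rl_opAlg iP bP hA hhom
  have hL' : lead iP m σ L ∈ KS (RL iP m A σ) 1 :=
    Submodule.subset_span ⟨L, hL, hLs.cast (by ring), by rw [mul_one]⟩
  obtain ⟨Φ, hΦ, hLam⟩ := hR.kspan.exists_lam igr' bgr' hL' hHL (by
    intro c hc
    obtain ⟨ν, hν, hs, hinj⟩ := hν c hc
    have h1 : lead iP m (-(σ * c)) ν ∈ KS (RL iP m A σ) (-c) :=
      Submodule.subset_span ⟨ν, hν, hs.cast (by ring), by rw [mul_neg]⟩
    exact hR.exists_theta_of_inj hL' hHL hc h1 hinj)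
  have hLh : IsHom gr' 2 (lead iP m σ L) := by simpa using hR.kspan.hom hL'
  obtain ⟨F, t, -, hF⟩ := exists_sl2 igr' hLh bgr' hHL
  have h2 := lower_of_lam hR.kspan igr' bgr' hL' hHL hΦ hLam hF
  obtain ⟨T, hT, hs, hTF⟩ := rl_of_ks iP (fun d => hA.zero d) (fun d T U => hA.add) hsm h2
  refine ⟨T, hT, hs.cast (by ring), ?_⟩
  rw [show -σ = σ * (-1) by ring, hTF]
  exact t

end Pool.Agent.Y140.Fib
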