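import Pool.Agent.Y140.Fib.Alg

/-!
# From the leading terms to the operators
-/

open Finset Polynomial

set_option linter.unusedSectionVars false

namespace Pool.Agent.Y140.Fib

open Pool.Agent.H914 Pool.Agent.H447 Pool.Agent.W498.Dom

variable {K : Type*} [Field K] [CharZero K] {V : Type*} [AddCommGroup V] [Module K V]

section Resc

variable {P : ℕ → Submodule K V} (iP : DirectSum.IsInternal P) {m : ℕ}
  (bP : ∀ i, 2 * m + 1 ≤ i → P i = ⊥)

/-- The rescaling of an operator which shifts the filtration by `δ`. -/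
noncomputable def resc {P : ℕ → Submodule K V} (iP : DirectSum.IsInternal P) (m : ℕ) (δ : ℤ)
    (T : Module.End K V) (s : K) : Module.End K V :=
  ∑ p ∈ range (2 * m + 1), ∑ q ∈ range (2 * m + 1),
    s ^ ((p : ℤ) + δ - q).toNat • (if (q : ℤ) ≤ p + δ then proj iP q * T * proj iP p else 0)

lemma pvec_resc (δ : ℤ) (T : Module.End K V) : PVec (fun s : K => resc iP m δ T s) := by
  apply PVec.sum
  intro p _
  apply PVec.sum
  intro q _
  have := (PVec.const (K := K) (if (q : ℤ) ≤ p + δ then proj iP q * T * proj iP p else 0)).smul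
    (X ^ ((p : ℤ) + δ - q).toNat)
  simpa using this

lemma resc_zero (δ : ℤ) (T : Module.End K V) : resc iP m δ T 0 = lead iP m δ T := by
  rw [resc, lead]
  apply Finset.sum_congr rfl
  intro p _
  apply Finset.sum_congr rfl
  intro q _
  by_cases h : (q : ℤ) = p + δ
  · rw [if_pos h.le, if_pos h, show ((p : ℤ) + δ - q).toNat = 0 by omega, pow_zero, one_smul]
  · rw [if_neg h]
    by_cases h' : (q : ℤ) ≤ p + δ
    · rw [zero_pow (by omega), zero_smul]
    · rw [if_neg h', smul_zero]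

include bP

lemma resc_apply {δ : ℤ} {T : Module.End K V} (s : K) {p : ℕ} {v : V} (hv : v ∈ P p) :
    resc iP m δ T s v = ∑ q ∈ range (2 * m + 1),
      s ^ ((p : ℤ) + δ - q).toNat • (if (q : ℤ) ≤ p + δ then proj iP q (T v) else 0) := by
  by_cases hp : p < 2 * m + 1
  · rw [resc, LinearMap.sum_apply, Finset.sum_eq_single p]
    · rw [LinearMap.sum_apply]
      apply Finset.sum_congr rfl
      intro q _
      rw [LinearMap.smul_apply]
      split_ifs
      · rw [Module.End.mul_apply, Module.End.mul_apply, proj_same iP hv]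
      · rfl
    · intro p' _ hp'
      rw [LinearMap.sum_apply]
      apply Finset.sum_eq_zero
      intro q _
      rw [LinearMap.smul_apply]
      split_ifs
      · rw [Module.End.mul_apply, proj_ne iP hv (Ne.symm hp'), map_zero, smul_zero]
      · rw [LinearMap.zero_apply, smul_zero]
    · intro h'; exact absurd (Finset.mem_range.2 hp) h'
  · rw [bP p (by omega)] at hv
    rw [(Submodule.mem_bot _).1 hv]
    simp

/-- The rescaling is, up to a power of `s`, the conjugate by the scaling operator. -/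
lemma scal_resc {δ : ℤ} {T : Module.End K V} (hT : Shifts P (-δ) T) (s : K) {d : ℕ}
    (hd : (d : ℤ) = δ) :
    s ^ d • (scal iP (fun p => s ^ p) * resc iP m (-δ) T s) = T * scal iP (fun p => s ^ p) := by
  apply gr_ext iP
  intro p v hv
  rw [LinearMap.smul_apply, Module.End.mul_apply, Module.End.mul_apply, resc_apply iP bP s hv,
    scal_apply iP _ hv, map_sum, map_smul, Finset.smul_sum]
  conv_rhs => rw [sumP' iP bP (T v), Finset.smul_sum]
  apply Finset.sum_congr rfl
  intro q _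
  rw [map_smul]
  by_cases h : (q : ℤ) ≤ p + -δ
  · rw [if_pos h, scal_apply iP _ (proj_mem iP q _), smul_smul, smul_smul, ← pow_add, ← pow_add]
    congr 2
    omega
  · rw [if_neg h, map_zero, smul_zero, smul_zero, (shifts_iff' iP bP).1 hT p v hv q (by omega),
      smul_zero]

end Resc

section Combine

variable {W₁ W₂ : Type*} [AddCommGroup W₁] [Module K W₁] [AddCommGroup W₂] [Module K W₂]

/-- Generic linear combinations are injective. -/
lemma exists_comb {ι : Type*} (I : Finset ι) (j : ι) (S : ι → Submodule K V) [Module.Finite K V]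
    {ν μ : Module.End K V} (hν : ∀ i ∈ I, ∀ a ∈ S i, ν a = 0 → a = 0)
    (hμ : ∀ a ∈ S j, μ a = 0 → a = 0) :
    ∃ t : K, (∀ i ∈ I, ∀ a ∈ S i, (ν + t • μ) a = 0 → a = 0) ∧
      ∀ a ∈ S j, (ν + t • μ) a = 0 → a = 0 := by
  classical
  have h1 : ∀ i ∈ I, ∃ p : K[X], p ≠ 0 ∧ ∀ t, p.eval t ≠ 0 → ∀ a ∈ S i, (ν + t • μ) a = 0 →
      a = 0 := by
    intro i hi
    have hfam : PFam (fun t : K => ((ν + t • μ) ∘ₗ (S i).subtype : S i →ₗ[K] V)) := by
      have h2 : (fun t : K => ((ν + t • μ) ∘ₗ (S i).subtype : S i →ₗ[K] V)) =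
          fun t => ν ∘ₗ (S i).subtype + (X : K[X]).eval t • (μ ∘ₗ (S i).subtype) := by
        funext t
        rw [LinearMap.add_comp, LinearMap.smul_comp, eval_X]
      rw [h2]
      exact (PFam.const _).add ((PFam.const _).smul X)
    obtain ⟨p, hp, hp'⟩ := hfam.generic_inj (by
      rw [← LinearMap.ker_eq_bot, LinearMap.ker_eq_bot']
      rintro ⟨a, ha⟩ h0
      apply Subtype.ext
      apply hν i hi a ha
      simpa using h0)
    refine ⟨p, hp, fun t ht a ha h0 => ?_⟩
    have h3 := hp' t ht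
    rw [← LinearMap.ker_eq_bot, LinearMap.ker_eq_bot'] at h3
    exact congrArg Subtype.val (h3 ⟨a, ha⟩ h0)
  choose! p hp hp' using h1
  have h2 : ∃ q : K[X], q ≠ 0 ∧ ∀ u, q.eval u ≠ 0 → ∀ a ∈ S j, (μ + u • ν) a = 0 → a = 0 := by
    have hfam : PFam (fun t : K => ((μ + t • ν) ∘ₗ (S j).subtype : S j →ₗ[K] V)) := by
      have h2 : (fun t : K => ((μ + t • ν) ∘ₗ (S j).subtype : S j →ₗ[K] V)) =
          fun t => μ ∘ₗ (S j).subtype + (X : K[X]).eval t • (ν ∘ₗ (S j).subtype) := by
        funext t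
        rw [LinearMap.add_comp, LinearMap.smul_comp, eval_X]
      rw [h2]
      exact (PFam.const _).add ((PFam.const _).smul X)
    obtain ⟨q, hq, hq'⟩ := hfam.generic_inj (by
      rw [← LinearMap.ker_eq_bot, LinearMap.ker_eq_bot']
      rintro ⟨a, ha⟩ h0
      apply Subtype.ext
      apply hμ a ha
      simpa using h0)
    refine ⟨q, hq, fun t ht a ha h0 => ?_⟩
    have h3 := hq' t ht
    rw [← LinearMap.ker_eq_bot, LinearMap.ker_eq_bot'] at h3
    exact congrArg Subtype.val (h3 ⟨a, ha⟩ h0)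
  obtain ⟨q, hq, hq'⟩ := h2
  have hprod : (∏ i ∈ I, p i) ≠ 0 := Finset.prod_ne_zero_iff.2 hp
  obtain ⟨t, ht⟩ := Infinite.exists_notMem_finset
    ((∏ i ∈ I, p i).roots.toFinset ∪ q.roots.toFinset.image (fun x => x⁻¹) ∪ {0})
  rw [Finset.mem_union, Finset.mem_union, not_or, not_or, Multiset.mem_toFinset,
    mem_roots hprod, IsRoot, eval_prod, Finset.mem_singleton] at ht
  obtain ⟨⟨ht1, ht2⟩, ht0⟩ := ht
  refine ⟨t, fun i hi a ha h0 => ?_, fun a ha h0 => ?_⟩
  · exact hp' i hi t (Finset.prod_ne_zero_iff.1 ht1 i hi) a ha h0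
  · apply hq' t⁻¹ _ a ha
    · rw [LinearMap.add_apply, LinearMap.smul_apply] at h0 ⊢
      have h3 : μ a + t⁻¹ • ν a = t⁻¹ • (ν a + t • μ a) := by
        rw [smul_add, smul_smul, inv_mul_cancel₀ ht0, one_smul, add_comm]
      rw [h3, h0, smul_zero]
    · intro h3
      apply ht2
      rw [Finset.mem_image]
      exact ⟨t⁻¹, by rw [Multiset.mem_toFinset, mem_roots hq]; exact h3, inv_inv t⟩

end Combine

section

variable {gr P : ℕ → Submodule K V} {m : ℕ} {h e : Module.End K V} (S : Setup gr P m h e)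

include S

lemma lead_two_eq_top : lead S.iP m 2 e = top S.iP m e := by
  apply gr_ext S.iP
  intro p v hv
  rw [lead_apply S.iP S.bP (q := p + 2) (by push_cast; ring) hv, S.top_apply hv]

lemma shifts_e : Shifts P 2 e := by
  rw [shifts_iff' S.iP S.bP]
  intro p v hv q hq
  exact S.eP p v hv q (by omega)

lemma shifts_h : Shifts P 0 h := shifts_of_isHom S.isHomP_h

lemma lead_zero_h : lead S.iP m 0 h = h := lead_of_isHom S.iP S.bP S.isHomP_h

lemma isHom_gr_lead {δ d : ℤ} {T : Module.End K V} (hT : IsHom gr d T) :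
    IsHom gr d (lead S.iP m δ T) := by
  apply IsHom.sum
  intro p _
  apply IsHom.sum
  intro q _
  split_ifs
  · have h1 := ((S.isHom_projP q).mul hT).mul (S.isHom_projP p)
    simpa using h1
  · exact isHom_zero _

/-- Operators homogeneous for both gradings are homogeneous for the difference. -/
lemma isHom_grA_of {d : ℤ} {T : Module.End K V} (hT : IsHom gr d T) (hTP : IsHom P 0 T) :
    IsHom (grA S.igr S.iP m) d T := by
  have h1 := hT.wt_comm S.igr m
  have h2 := hTP.wt_comm S.iP m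
  have h3 : Ha S.igr S.iP m * T = T * Ha S.igr S.iP m + (d : K) • T := by
    rw [Ha, sub_mul, mul_sub, h1, h2]
    push_cast
    rw [zero_smul, add_zero]
    abel
  intro i a ha
  by_cases hi : 0 ≤ i
  · lift i to ℕ using hi
    rw [grZ_natCast, S.mem_grA] at ha
    have h4 := congrArg (fun F => F a) h3
    simp only [Module.End.mul_apply, LinearMap.add_apply, LinearMap.smul_apply] at h4
    rw [ha, map_smul, ← add_smul] at h4
    by_cases hid : 0 ≤ (i : ℤ) + d
    · obtain ⟨j, hj⟩ := Int.eq_ofNat_of_zero_le hid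
      rw [hj, grZ_natCast, S.mem_grA, h4]
      congr 1
      have : (j : ℤ) = i + d := hj.symm
      rw [this]
      push_cast; ring
    · -- the weight is too small
      have h5 : T a = 0 := by
        rw [S.sumP (T a)]
        apply Finset.sum_eq_zero
        intro p hp
        have h6 := S.comp_mem (c := (i : ℤ) - (2 * m : ℕ) + d) (v := T a) (by
          rw [h4]; congr 1; push_cast; ring) p
        have h7 := Finset.mem_range.1 hp
        rw [grZ_of_neg (by push_cast; omega)] at h6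
        exact (Submodule.mem_bot _).1 h6
      rw [h5]
      exact Submodule.zero_mem _
  · rw [grZ_of_neg (by omega)] at ha
    rw [(Submodule.mem_bot _).1 ha, map_zero]
    exact Submodule.zero_mem _

/-- The sum of the two triples. -/
lemma sl2_sum [Module.Finite K V] {Λ Λ' : Module.End K V} (t1 : Sl2 (Ha S.igr S.iP m) h Λ)
    (t2 : Sl2 (wt S.iP m) (top S.iP m e) Λ') :
    Sl2 (wt S.igr m) (h + top S.iP m e) (Λ + Λ') := by
  have hwh : wt S.iP m * h = h * wt S.iP m := by
    have := S.isHomP_h.wt_comm S.iP m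
    rw [this]; simp
  have hwHa : wt S.iP m * Ha S.igr S.iP m = Ha S.igr S.iP m * wt S.iP m := by
    rw [Ha, mul_sub, sub_mul, S.wt_wt]
  have c1 : h * Λ' = Λ' * h := comm_f t2 hwh.symm S.h_top
  have c2 : top S.iP m e * Λ = Λ * top S.iP m e := comm_f t1 S.Ha_top.symm S.h_top.symm
  have c3 : wt S.iP m * Λ = Λ * wt S.iP m := comm_f t1 hwHa hwh
  have c4 : Ha S.igr S.iP m * Λ' = Λ' * Ha S.igr S.iP m := comm_f t2 hwHa.symm S.Ha_top
  have c5 : Λ * Λ' = Λ' * Λ := comm_f t2 c3.symm c2.symm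
  have t := Sl2.add t1 t2 S.Ha_top c4 hwh.symm c1 c3.symm c2.symm
  have h1 : Ha S.igr S.iP m + wt S.iP m = wt S.igr m := by rw [Ha, sub_add_cancel]
  rwa [h1] at t

lemma wt_grA [Module.Finite K V] : wt S.igrA (2 * m) = Ha S.igr S.iP m := by
  apply gr_ext S.igrA
  intro i a ha
  rw [wt_apply _ _ ha, S.mem_grA.1 ha]
  push_cast; rfl

/-- Combination of the injective leading terms of all perverse degrees. -/
lemma exists_base_comb [Module.Finite K V] {A : ℤ → Module.End K V → Prop} (hA : OpAlg gr A)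
    (hsm : ∀ d (c : K) T, A d T → A d (c • T)) {c : ℕ}
    (hbase : ∀ p : ℕ, ∃ ν, A (-c) ν ∧ Shifts P 0 ν ∧
      ∀ a ∈ P p ⊓ gr (p + c), lead S.iP m 0 ν a = 0 → a = 0) :
    ∃ ν, A (-c) ν ∧ Shifts P 0 ν ∧
      ∀ a ∈ grA S.igr S.iP m (2 * m + c), lead S.iP m 0 ν a = 0 → a = 0 := by
  have key : ∀ n : ℕ, ∃ ν, A (-c) ν ∧ Shifts P 0 ν ∧
      ∀ p ∈ range n, ∀ a ∈ P p ⊓ gr (p + c), lead S.iP m 0 ν a = 0 → a = 0 := by
    intro n
    induction n with
    | zero => exact ⟨0, hA.zero _, shifts_zero _, by simp⟩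
    | succ n ih =>
      obtain ⟨ν, h1, h2, h3⟩ := ih
      obtain ⟨μ, h4, h5, h6⟩ := hbase n
      obtain ⟨t, ht, ht'⟩ := exists_comb (range n) n (fun p => P p ⊓ gr (p + c)) h3 h6
      refine ⟨ν + t • μ, hA.add h1 (hsm _ _ _ h4), h2.add (h5.smul t), ?_⟩
      intro p hp a ha h0
      rw [lead_add, lead_smul] at h0
      rw [Finset.mem_range, Nat.lt_succ_iff_lt_or_eq] at hp
      rcases hp with hp | rfl
      · exact ht p (Finset.mem_range.2 hp) a ha h0
      · exact ht' a ha h0
  obtain ⟨ν, h1, h2, h3⟩ := key (2 * m + 1)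
  refine ⟨ν, h1, h2, fun a ha h0 => ?_⟩
  rw [S.mem_grA] at ha
  rw [S.sumP a]
  apply Finset.sum_eq_zero
  intro p hp
  have h4 := S.comp_mem ha p
  rw [show ((2 * m + c : ℕ) : ℤ) - (2 * m : ℕ) + p = ((p + c : ℕ) : ℤ) by push_cast; ring,
    grZ_natCast] at h4
  apply h3 p hp _ ⟨proj_mem S.iP p a, h4⟩
  have h5 := (isHom_lead S.iP S.bP 0 ν).proj_comm S.iP p
  rw [← Module.End.mul_apply, ← h5, Module.End.mul_apply, h0, map_zero]

/-- **From leading terms to operators.** -/
theorem inj_of_leads [Module.Finite K V] {A : ℤ → Module.End K V → Prop} (hA : OpAlg gr A)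
    (hsm : ∀ d (c : K) T, A d T → A d (c • T)) (hh : A 1 h) (he : A 1 e)
    (hrel : ∀ c ≤ m, ∃ ν, A (-c) ν ∧ Shifts P (-(2 * c)) ν ∧
      ∀ a ∈ P (m + c), lead S.iP m (-(2 * c)) ν a = 0 → a = 0)
    (hbase : ∀ p c : ℕ, ∃ ν, A (-c) ν ∧ Shifts P 0 ν ∧
      ∀ a ∈ P p ⊓ gr (p + c), lead S.iP m 0 ν a = 0 → a = 0) (c : ℕ) :
    ∃ ν, A (-c) ν ∧ ∀ a ∈ gr (m + c), ν a = 0 → a = 0 := by
  obtain ⟨T', hT', hs', t2⟩ := exists_lead_lower S.iP S.bP hA hsm (σ := 2) (gr' := P) (n := m)
    (fun d T _ => isHom_lead S.iP S.bP _ _) S.iP S.bP he (shifts_e S)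
    (by rw [lead_two_eq_top S]; exact S.rl) hrel
  obtain ⟨T, hT, hs, t1⟩ := exists_lead_lower S.iP S.bP hA hsm (σ := 0)
    (gr' := grA S.igr S.iP m) (n := 2 * m)
    (fun d T hT => isHom_grA_of S (isHom_gr_lead S (hA.hom hT))
      (by rw [zero_mul]; exact isHom_lead S.iP S.bP _ _)) S.igrA S.bgrA hh (shifts_h S)
    (by rw [lead_zero_h S]; exact S.hlA)
    (fun c _ => by
      obtain ⟨ν, h1, h2, h3⟩ := exists_base_comb S hA hsm (fun p => hbase p c)
      exact ⟨ν, h1, h2.cast (by ring), fun a ha h0 => h3 a ha (by simpa using h0)⟩)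
  rw [lead_two_eq_top S] at t2
  rw [lead_zero_h S, wt_grA S] at t1
  have t := sl2_sum S t1 t2
  have hs0 : Shifts P (-(0 : ℤ)) T := hs
  have hs2 : Shifts P (-(2 : ℤ)) T' := hs'
  -- the rescaled family
  set N : K → Module.End K V := fun s => resc S.iP m (-0) T s + resc S.iP m (-2) T' s with hN
  have hNv : PVec N := (pvec_resc S.iP _ T).add (pvec_resc S.iP _ T')
  have hN0 : N 0 = lead S.iP m (-0) T + lead S.iP m (-2) T' := by
    simp only [hN]
    rw [resc_zero, resc_zero]
  have hfam : PFam (fun s => (N s ^ c) ∘ₗ (gr (m + c)).subtype) := fun x => (hNv.pfam.pow c) x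
  obtain ⟨p, hp, hp'⟩ := hfam.generic_inj (by
    rw [← LinearMap.ker_eq_bot, LinearMap.ker_eq_bot']
    intro y hy
    apply Subtype.ext
    rw [LinearMap.comp_apply, Submodule.subtype_apply, hN0] at hy
    apply f_pow_inj t (c := c) _ hy
    rw [wt_apply S.igr m y.2]
    congr 1
    push_cast; ring)
  obtain ⟨s, hs0', hps⟩ := exists_nonroot p hp
  have hinj := hp' s hps
  rw [← LinearMap.ker_eq_bot, LinearMap.ker_eq_bot'] at hinj
  set D := scal S.iP (fun p => s ^ p) with hD
  set D' := scal S.iP (fun p => (s ^ p)⁻¹) with hD'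
  have e1 : D * D' = 1 := S.scal_inv hs0'
  have e2 : D' * D = 1 := S.inv_scal hs0'
  set Ξ := T + (s ^ 2)⁻¹ • T' with hΞ
  have e3 : D * N s = Ξ * D := by
    have h1 := scal_resc S.iP S.bP hs0 s (d := 0) (by simp)
    have h2 := scal_resc S.iP S.bP hs2 s (d := 2) (by simp)
    rw [pow_zero, one_smul] at h1
    simp only [hN]
    rw [mul_add, h1, hΞ, add_mul, smul_mul_assoc, ← h2, smul_smul,
      inv_mul_cancel₀ (pow_ne_zero _ hs0'), one_smul]
  have e4 : ∀ j : ℕ, D * N s ^ j = Ξ ^ j * D := by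
    intro j
    induction j with
    | zero => rw [pow_zero, pow_zero, mul_one, one_mul]
    | succ j ih => rw [pow_succ, ← mul_assoc, ih, mul_assoc, e3, ← mul_assoc, ← pow_succ]
  refine ⟨Ξ ^ c, ?_, ?_⟩
  · exact hA.cast (hA.pow (hA.add hT (hsm _ _ _ hT')) c) (by ring)
  · intro a ha h0
    have h1 : D' a ∈ gr (m + c) := S.scal_gr _ ha
    have h2 : D' a = 0 := by
      have h3 := hinj ⟨D' a, h1⟩ (by
        change (N s ^ c) (D' a) = 0
        have h4 : (N s ^ c) (D' a) = D' ((Ξ ^ c) a) := by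
          have h5 : D' * (D * N s ^ c) * D' = D' * (Ξ ^ c * D) * D' := by rw [e4]
          have h6 : D' * (D * N s ^ c) * D' = N s ^ c * D' := by
            rw [← mul_assoc, e2, one_mul]
          have h7 : D' * (Ξ ^ c * D) * D' = D' * Ξ ^ c := by
            rw [mul_assoc, mul_assoc, e1, mul_one]
          rw [h6, h7] at h5
          exact congrArg (fun F => F a) h5
        rw [h4, h0, map_zero])
      exact congrArg Subtype.val h3
    have h3 : a = D (D' a) := by rw [← Module.End.mul_apply, e1, Module.End.one_apply]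
    rw [h3, h2, map_zero]

end

end Pool.Agent.Y140.Fib
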