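import Pool.Agent.Y140.Fib.LowPoly

/-!
# The leading terms of the lowering operators of the pencil
-/

open Finset Polynomial

set_option linter.unusedSectionVars false

namespace Pool.Agent.Y140.Fib

open Pool.Agent.H914 Pool.Agent.H447 Pool.Agent.W498.Dom

variable {K : Type*} [Field K]

lemma coeff_extract {q α γ : K[X]} {N : ℕ} (h : q * α = X ^ N * γ) (hq : q.coeff 0 ≠ 0) :
    (∀ i < N, α.coeff i = 0) ∧ q.coeff 0 * α.coeff N = γ.coeff 0 := by
  have h1 : (X : K[X]) ^ N ∣ q * α := ⟨γ, h⟩
  have h2 : ¬ (X : K[X]) ∣ q := by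
    rw [X_dvd_iff]; exact hq
  have h3 : (X : K[X]) ^ N ∣ α := prime_X.pow_dvd_of_dvd_mul_left N h2 h1
  refine ⟨X_pow_dvd_iff.1 h3, ?_⟩
  obtain ⟨α', rfl⟩ := h3
  have h4 : q * α' = γ := by
    have h5 : (X : K[X]) ^ N * (q * α') = X ^ N * γ := by rw [← h]; ring
    exact mul_left_cancel₀ (pow_ne_zero _ X_ne_zero) h5
  have h6 : (X ^ N * α').coeff N = α'.coeff 0 := by
    have := coeff_X_pow_mul α' N 0
    rwa [zero_add] at this
  rw [h6, ← h4, mul_coeff_zero]

variable [CharZero K] {V : Type*} [AddCommGroup V] [Module K V]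
  {gr P : ℕ → Submodule K V} {m : ℕ} {h e : Module.End K V} (S : Setup gr P m h e)

/-- The polynomial of the values of a functional on the coefficients of a block. -/
noncomputable def blkPoly {P : ℕ → Submodule K V} (iP : DirectSum.IsInternal P)
    (l : Module.End K V →ₗ[K] K) (x y : ℕ) (p : (Module.End K V)[X]) : K[X] :=
  ∑ k ∈ range (p.natDegree + 1), C (l (proj iP x * p.coeff k * proj iP y)) * X ^ k

lemma blkPoly_coeff {P : ℕ → Submodule K V} (iP : DirectSum.IsInternal P)
    (l : Module.End K V →ₗ[K] K) (x y : ℕ) (p : (Module.End K V)[X]) (k : ℕ) :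
    (blkPoly iP l x y p).coeff k = l (proj iP x * p.coeff k * proj iP y) := by
  rw [blkPoly, finsetSum_coeff]
  by_cases hk : k < p.natDegree + 1
  · rw [Finset.sum_eq_single k]
    · rw [coeff_C_mul, coeff_X_pow, if_pos rfl, mul_one]
    · intro j _ hj
      rw [coeff_C_mul, coeff_X_pow, if_neg (Ne.symm hj), mul_zero]
    · intro h'; exact absurd (Finset.mem_range.2 hk) h'
  · rw [Finset.sum_eq_zero]
    · rw [coeff_eq_zero_of_natDegree_lt (by omega), mul_zero, zero_mul, map_zero]
    · intro j hj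
      rw [Finset.mem_range] at hj
      rw [coeff_C_mul, coeff_X_pow, if_neg (by omega), mul_zero]

lemma blkPoly_eval {P : ℕ → Submodule K V} (iP : DirectSum.IsInternal P)
    (l : Module.End K V →ₗ[K] K) (x y : ℕ) (p : (Module.End K V)[X]) (s : K) :
    (blkPoly iP l x y p).eval s = l (proj iP x * evs s p * proj iP y) := by
  rw [blkPoly, eval_finsetSum, evs_eq_sum, Finset.mul_sum, Finset.sum_mul, map_sum]
  apply Finset.sum_congr rfl
  intro k _
  rw [eval_mul, eval_C, eval_pow, eval_X, mul_smul_comm, smul_mul_assoc, map_smul, smul_eq_mul,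
    mul_comm]

include S

/-- **The leading terms.** -/
theorem extract [Module.Finite K V] {p : (Module.End K V)[X]} {t u : K[X]} {a : ℕ}
    (ht : t = X ^ a * u) (hu : u.coeff 0 ≠ 0) (ha : 2 ≤ a) {w : K[X]} (hw : w ≠ 0)
    (hF : ∀ s : K, s ≠ 0 → w.eval s ≠ 0 → ∃ F, Sl2 (wt S.igr m) (h + s ^ 2 • e) F ∧
      evs s p = t.eval s • F) :
    ∃ Λ Λ', Sl2 (Ha S.igr S.iP m) h Λ ∧ Sl2 (wt S.iP m) (top S.iP m e) Λ' ∧
      Shifts P 0 (p.coeff a) ∧ lead S.iP m 0 (p.coeff a) = u.coeff 0 • Λ ∧
      Shifts P (-2) (p.coeff (a - 2)) ∧ lead S.iP m (-2) (p.coeff (a - 2)) = u.coeff 0 • Λ' := by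
  obtain ⟨Λ, Λ', t1, t2, hΛ', t12⟩ := S.exists_sl2_both
  obtain ⟨q, A, hq, hA, hqA⟩ := S.exists_family
  have hA0 : A 0 = q.eval 0 • (Λ + Λ') := (hqA 0 (Λ + Λ') (by rw [S.LL_zero]; exact t12)).symm
  have hΛP : ∀ x, proj S.iP x * Λ = Λ * proj S.iP x := fun x =>
    comm_f t1 (S.Ha_projP x).symm (S.projP_h x)
  have hq0 : q.coeff 0 ≠ 0 := by rwa [coeff_zero_eq_eval_zero]
  -- the identity of polynomials
  have key : ∀ (l : Module.End K V →ₗ[K] K) (x y : ℕ), ∃ β : K[X],
      β.coeff 0 = q.coeff 0 * l (proj S.iP x * (Λ + Λ') * proj S.iP y) ∧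
      X ^ y * (q * blkPoly S.iP l x y p) = X ^ (x + a) * (u * β) := by
    intro l x y
    obtain ⟨β, hβ⟩ := hA (l ∘ₗ LinearMap.mulLeft K (proj S.iP x) ∘ₗ
      LinearMap.mulRight K (proj S.iP y))
    have hβ' : ∀ s, l (proj S.iP x * A s * proj S.iP y) = β.eval s := by
      intro s
      rw [← hβ]
      simp only [LinearMap.comp_apply, LinearMap.mulLeft_apply, LinearMap.mulRight_apply,
        mul_assoc]
    refine ⟨β, ?_, ?_⟩
    · rw [coeff_zero_eq_eval_zero, ← hβ', hA0, mul_smul_comm, smul_mul_assoc, map_smul,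
        smul_eq_mul, coeff_zero_eq_eval_zero]
    · rw [← sub_eq_zero]
      have hX : (X : K[X]) * w ≠ 0 := mul_ne_zero X_ne_zero hw
      apply mul_left_cancel₀ hX
      rw [mul_zero]
      apply Polynomial.funext
      intro s
      rw [eval_zero, eval_mul, eval_mul, eval_X]
      by_cases hs : s = 0
      · rw [hs, zero_mul, zero_mul]
      by_cases hws : w.eval s = 0
      · rw [hws, mul_zero, zero_mul]
      obtain ⟨F, tF, hpF⟩ := hF s hs hws
      have g1 := hqA s _ (S.sl2_conj hs tF)
      have h2 : proj S.iP x * scal S.iP (fun p => (s ^ p)⁻¹) = (s ^ x)⁻¹ • proj S.iP x := by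
        apply gr_ext S.iP
        intro p' v hv
        rw [Module.End.mul_apply, scal_apply S.iP _ hv, map_smul, LinearMap.smul_apply]
        by_cases hp : p' = x
        · subst hp; rfl
        · rw [proj_ne S.iP hv hp, smul_zero, smul_zero]
      have h3 : scal S.iP (fun p => s ^ p) * proj S.iP y = s ^ y • proj S.iP y := by
        apply gr_ext S.iP
        intro p' v hv
        rw [Module.End.mul_apply, LinearMap.smul_apply, scal_apply S.iP _ (proj_mem S.iP y v)]
      have h4 : q.eval s * (s ^ y * l (proj S.iP x * F * proj S.iP y)) =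
          s ^ x * β.eval s := by
        rw [← hβ', ← g1]
        have h5 : proj S.iP x * (q.eval s • (scal S.iP (fun p => (s ^ p)⁻¹) * F *
            scal S.iP (fun p => s ^ p))) * proj S.iP y =
            (q.eval s * ((s ^ x)⁻¹ * s ^ y)) • (proj S.iP x * F * proj S.iP y) := by
          calc proj S.iP x * (q.eval s • (scal S.iP (fun p => (s ^ p)⁻¹) * F *
                scal S.iP (fun p => s ^ p))) * proj S.iP y
              = q.eval s • ((proj S.iP x * scal S.iP (fun p => (s ^ p)⁻¹)) * F *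
                (scal S.iP (fun p => s ^ p) * proj S.iP y)) := by
                  rw [mul_smul_comm, smul_mul_assoc]
                  simp only [mul_assoc]
            _ = _ := by
                  rw [h2, h3, smul_mul_assoc, smul_mul_assoc, mul_smul_comm, smul_smul, smul_smul,
                    mul_assoc]
        rw [h5, map_smul, smul_eq_mul]
        have h6 : s ^ x ≠ 0 := pow_ne_zero _ hs
        field_simp
      have h7 : (blkPoly S.iP l x y p).eval s = t.eval s * l (proj S.iP x * F * proj S.iP y) := by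
        rw [blkPoly_eval, hpF, mul_smul_comm, smul_mul_assoc, map_smul, smul_eq_mul]
      rw [eval_sub, eval_mul, eval_mul, eval_mul, eval_mul, eval_pow, eval_pow, eval_X, h7]
      have h8 : t.eval s = s ^ a * u.eval s := by rw [ht, eval_mul, eval_pow, eval_X]
      have h9 : s ^ y * (q.eval s * (t.eval s * l (proj S.iP x * F * proj S.iP y))) -
          s ^ (x + a) * (u.eval s * β.eval s) = 0 := by
        have h10 : s ^ y * (q.eval s * (t.eval s * l (proj S.iP x * F * proj S.iP y))) =
            t.eval s * (q.eval s * (s ^ y * l (proj S.iP x * F * proj S.iP y))) := by ring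
        rw [h10, h4, h8, pow_add]
        ring
      rw [h9, mul_zero]
  -- the values of the blocks of the coefficients
  have blk : ∀ (x y N : ℕ), N + y = x + a → ∀ l : Module.End K V →ₗ[K] K,
      (∀ i < N, l (proj S.iP x * p.coeff i * proj S.iP y) = 0) ∧
      l (proj S.iP x * p.coeff N * proj S.iP y) =
        u.coeff 0 * l (proj S.iP x * (Λ + Λ') * proj S.iP y) := by
    intro x y N hN l
    obtain ⟨β, hβ, h1⟩ := key l x y
    have h2 : q * blkPoly S.iP l x y p = X ^ N * (u * β) := by
      rw [← hN, add_comm, pow_add, mul_assoc] at h1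
      exact mul_left_cancel₀ (pow_ne_zero _ X_ne_zero) h1
    obtain ⟨h3, h4⟩ := coeff_extract h2 hq0
    refine ⟨fun i hi => ?_, ?_⟩
    · rw [← blkPoly_coeff]; exact h3 i hi
    · rw [blkPoly_coeff, mul_coeff_zero, hβ] at h4
      apply mul_left_cancel₀ hq0
      rw [h4]; ring
  have ext0 : ∀ {T : Module.End K V}, (∀ l : Module.End K V →ₗ[K] K, l T = 0) → T = 0 :=
    fun {T} hT => (Module.forall_dual_apply_eq_zero_iff K T).1 hT
  have blk1 : ∀ x y N i : ℕ, N + y = x + a → i < N →
      proj S.iP x * p.coeff i * proj S.iP y = 0 := fun x y N i hN hi =>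
    ext0 (fun l => (blk x y N hN l).1 i hi)
  have blk2 : ∀ x y N : ℕ, N + y = x + a → proj S.iP x * p.coeff N * proj S.iP y =
      u.coeff 0 • (proj S.iP x * (Λ + Λ') * proj S.iP y) := by
    intro x y N hN
    rw [← sub_eq_zero]
    apply ext0
    intro l
    rw [map_sub, (blk x y N hN l).2, map_smul, smul_eq_mul, sub_self]
  have app : ∀ {x y : ℕ} {T : Module.End K V} {v : V}, v ∈ P y →
      proj S.iP x (T v) = (proj S.iP x * T * proj S.iP y) v := by
    intro x y T v hv
    rw [Module.End.mul_apply, Module.End.mul_apply, proj_same S.iP hv]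
  have hΛmem : ∀ {y : ℕ} {v : V}, v ∈ P y → Λ v ∈ P y := by
    intro y v hv
    have h1 : Λ v = proj S.iP y (Λ v) := by
      rw [← Module.End.mul_apply, hΛP, Module.End.mul_apply, proj_same S.iP hv]
    rw [h1]; exact proj_mem S.iP y _
  have hΛ'mem : ∀ {y : ℕ} {v : V}, v ∈ P y → ∀ x : ℕ, (x : ℤ) ≠ y - 2 →
      proj S.iP x (Λ' v) = 0 := by
    intro y v hv x hx
    have h1 := hΛ' y v (by rw [grZ_natCast]; exact hv)
    by_cases hy : 2 ≤ y
    · rw [show (y : ℤ) + -2 = ((y - 2 : ℕ) : ℤ) by omega, grZ_natCast] at h1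
      exact proj_ne S.iP h1 (by omega)
    · rw [grZ_of_neg (by omega)] at h1
      rw [(Submodule.mem_bot _).1 h1, map_zero]
  refine ⟨Λ, Λ', t1, t2, ?_, ?_, ?_, ?_⟩
  · rw [shifts_iff' S.iP S.bP]
    intro y v hv x hx
    rw [app hv, blk1 x y (x + a - y) a (by omega) (by omega), LinearMap.zero_apply]
  · apply gr_ext S.iP
    intro y v hv
    rw [lead_apply S.iP S.bP (q := y) (by ring) hv, app hv, blk2 y y a (by omega),
      LinearMap.smul_apply, ← app hv, LinearMap.smul_apply, LinearMap.add_apply, map_add,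
      proj_same S.iP (hΛmem hv), hΛ'mem hv y (by omega), add_zero]
  · rw [shifts_iff' S.iP S.bP]
    intro y v hv x hx
    rw [app hv, blk1 x y (x + a - y) (a - 2) (by omega) (by omega), LinearMap.zero_apply]
  · apply gr_ext S.iP
    intro y v hv
    by_cases hy : 2 ≤ y
    · rw [lead_apply S.iP S.bP (q := y - 2) (by omega) hv, app hv,
        blk2 (y - 2) y (a - 2) (by omega), LinearMap.smul_apply, ← app hv, LinearMap.smul_apply,
        LinearMap.add_apply, map_add, proj_ne S.iP (hΛmem hv) (by omega), zero_add]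
      congr 1
      have h1 := hΛ' y v (by rw [grZ_natCast]; exact hv)
      rw [show (y : ℤ) + -2 = ((y - 2 : ℕ) : ℤ) by omega, grZ_natCast] at h1
      exact proj_same S.iP h1
    · rw [lead_apply_neg S.iP S.bP (by omega) hv, LinearMap.smul_apply]
      have h1 := hΛ' y v (by rw [grZ_natCast]; exact hv)
      rw [grZ_of_neg (by omega)] at h1
      rw [(Submodule.mem_bot _).1 h1, smul_zero]

end Pool.Agent.Y140.Fib
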