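import Mathlib
import Pool.Agent.H558R2.FL

/-!
# The Faddeev-LeVerrier algorithm over fields of characteristic zero
-/

namespace Pool.Agent.Y140.Fib

open Matrix Polynomial
open Pool.Agent.H558R2 (derivative_charpoly)

variable {K : Type*} [Field K]

section Mat

variable {m : ℕ}

/-- The matrices of the Faddeev–LeVerrier algorithm. -/
noncomputable def flM (A : Matrix (Fin m) (Fin m) K) : ℕ → Matrix (Fin m) (Fin m) K
  | 0 => 1
  | k + 1 => A * flM A k - (trace (A * flM A k) / ((k : K) + 1)) • 1

/-- The coefficients of the adjugate of the characteristic matrix. -/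
noncomputable def adjM (A : Matrix (Fin m) (Fin m) K) (k : ℕ) : Matrix (Fin m) (Fin m) K :=
  (matPolyEquiv (adjugate (charmatrix A))).coeff k

lemma adjM_mul (A : Matrix (Fin m) (Fin m) K) :
    (X - C A) * matPolyEquiv (adjugate (charmatrix A)) =
      A.charpoly.map (algebraMap K (Matrix (Fin m) (Fin m) K)) := by
  have h : A.charpoly • (1 : Matrix (Fin m) (Fin m) K[X]) =
      charmatrix A * adjugate (charmatrix A) := (mul_adjugate _).symm
  have h2 := congrArg matPolyEquiv h
  rw [map_mul, matPolyEquiv_charmatrix, matPolyEquiv_smul_one] at h2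
  exact h2.symm

lemma algMap_eq (c : K) : algebraMap K (Matrix (Fin m) (Fin m) K) c = c • 1 :=
  Algebra.algebraMap_eq_smul_one c

lemma adjM_rec (A : Matrix (Fin m) (Fin m) K) (k : ℕ) :
    adjM A k = A * adjM A (k + 1) + A.charpoly.coeff (k + 1) • 1 := by
  have h := congrArg (fun p => coeff p (k + 1)) (adjM_mul A)
  simp only [coeff_map, sub_mul, coeff_sub, coeff_X_mul, coeff_C_mul, algMap_eq] at h
  unfold adjM
  rw [← h]
  abel

lemma adjM_zero_rec (A : Matrix (Fin m) (Fin m) K) :
    0 = A * adjM A 0 + A.charpoly.coeff 0 • 1 := by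
  have h := congrArg (fun p => coeff p 0) (adjM_mul A)
  simp only [coeff_map, sub_mul, coeff_sub, coeff_C_mul, algMap_eq, coeff_X_mul_zero,
    zero_sub] at h
  unfold adjM
  rw [← h]
  abel

lemma trace_adjM (A : Matrix (Fin m) (Fin m) K) (k : ℕ) :
    trace (adjM A k) = ((k : K) + 1) * A.charpoly.coeff (k + 1) := by
  have h := congrArg (fun p => coeff p k) (derivative_charpoly A)
  simp only [coeff_derivative, trace, diag_apply, finsetSum_coeff] at h
  unfold trace adjM
  simp only [diag_apply, matPolyEquiv_coeff_apply]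
  rw [← h]
  ring

lemma adjM_eq_zero (A : Matrix (Fin m) (Fin m) K) (k : ℕ) (hk : m ≤ k) : adjM A k = 0 := by
  set N := (matPolyEquiv (adjugate (charmatrix A))).natDegree + 1 with hN
  have key : ∀ j, ∀ k, m ≤ k → N ≤ k + j → adjM A k = 0 := by
    intro j
    induction j with
    | zero =>
      intro k _ h
      exact coeff_eq_zero_of_natDegree_lt (by omega)
    | succ j ih =>
      intro k hk h
      rw [adjM_rec, ih (k + 1) (by omega) (by omega)]
      have : A.charpoly.coeff (k + 1) = 0 := by
        apply coeff_eq_zero_of_natDegree_lt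
        rw [charpoly_natDegree_eq_dim, Fintype.card_fin]
        omega
      rw [this]
      simp
  exact key N k hk (by omega)

lemma flM_eq [CharZero K] (A : Matrix (Fin m) (Fin m) K) (k : ℕ) (hk : k < m) :
    flM A k = adjM A (m - 1 - k) := by
  induction k with
  | zero =>
    rw [adjM_rec, adjM_eq_zero A _ (by omega)]
    have : A.charpoly.coeff (m - 1 - 0 + 1) = 1 := by
      have h1 : m - 1 - 0 + 1 = m := by omega
      rw [h1]
      have h2 := A.charpoly_monic
      rw [Monic, leadingCoeff, charpoly_natDegree_eq_dim, Fintype.card_fin] at h2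
      exact h2
    rw [this, flM]
    simp
  | succ k ih =>
    have ih' := ih (by omega)
    have e1 : m - 1 - (k + 1) + 1 = m - 1 - k := by omega
    have h1 := adjM_rec A (m - 1 - (k + 1))
    rw [e1, ← ih'] at h1
    have h2 := trace_adjM A (m - 1 - (k + 1))
    rw [e1] at h2
    have h3 : trace (adjM A (m - 1 - (k + 1))) =
        trace (A * flM A k) + A.charpoly.coeff (m - 1 - k) * m := by
      rw [h1, trace_add, trace_smul, trace_one, Fintype.card_fin, smul_eq_mul]
    have h4 : ((m - 1 - (k + 1) : ℕ) : K) + 1 = (m : K) - ((k : K) + 1) := by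
      have : ((m - 1 - (k + 1) : ℕ) : K) + 1 + ((k : K) + 1) = m := by
        have : (m - 1 - (k + 1)) + 1 + (k + 1) = m := by omega
        exact_mod_cast this
      linear_combination this
    rw [h4, h3] at h2
    have h5 : A.charpoly.coeff (m - 1 - k) = - (trace (A * flM A k) / ((k : K) + 1)) := by
      have hk0 : ((k : K) + 1) ≠ 0 := by exact_mod_cast Nat.succ_ne_zero k
      field_simp
      linear_combination h2
    rw [flM, h1, h5, neg_smul, sub_eq_add_neg]

lemma flM_last [CharZero K] (A : Matrix (Fin m) (Fin m) K) (hm : 1 ≤ m) :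
    A * flM A (m - 1) = (trace (A * flM A (m - 1)) / (m : K)) • 1 ∧
      (IsUnit A.det → trace (A * flM A (m - 1)) / (m : K) ≠ 0) := by
  have h1 := adjM_zero_rec A
  have h2 := flM_eq A (m - 1) (by omega)
  rw [show m - 1 - (m - 1) = 0 by omega] at h2
  rw [← h2] at h1
  have hm' : (m : K) ≠ 0 := by exact_mod_cast (by omega : m ≠ 0)
  have h3 : A * flM A (m - 1) = -(A.charpoly.coeff 0) • 1 := by
    rw [neg_smul]
    exact eq_neg_of_add_eq_zero_left h1.symm
  have h4 : trace (A * flM A (m - 1)) / (m : K) = -(A.charpoly.coeff 0) := by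
    rw [h3, trace_smul, trace_one, Fintype.card_fin, smul_eq_mul]
    field_simp
  refine ⟨by rw [h4]; exact h3, fun hd => ?_⟩
  rw [h4, neg_ne_zero]
  intro h0
  have h5 := det_eq_sign_charpoly_coeff A
  rw [h0, mul_zero] at h5
  rw [h5] at hd
  exact not_isUnit_zero hd

end Mat

section Lin

variable {V : Type*} [AddCommGroup V] [Module K V]

/-- The operators of the Faddeev–LeVerrier algorithm. -/
noncomputable def flE (E : Module.End K V) : ℕ → Module.End K V
  | 0 => 1
  | k + 1 => E * flE E k - (LinearMap.trace K V (E * flE E k) / ((k : K) + 1)) • 1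

lemma toMatrix_flE [Module.Finite K V] (E : Module.End K V) (k : ℕ) :
    LinearMap.toMatrix (Module.finBasis K V) (Module.finBasis K V) (flE E k) =
      flM (LinearMap.toMatrix (Module.finBasis K V) (Module.finBasis K V) E) k := by
  induction k with
  | zero => rw [flE, flM, LinearMap.toMatrix_one]
  | succ k ih =>
    rw [flE, flM, map_sub, map_smul, LinearMap.toMatrix_one, LinearMap.toMatrix_mul, ih,
      LinearMap.trace_eq_matrix_trace K (Module.finBasis K V), LinearMap.toMatrix_mul, ih]

lemma flE_last [CharZero K] [Module.Finite K V] (E : Module.End K V) {d : ℕ}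
    (hd : Module.finrank K V = d) (hd1 : 1 ≤ d) :
    E * flE E (d - 1) = (LinearMap.trace K V (E * flE E (d - 1)) / (d : K)) • 1 ∧
      (Function.Injective E → LinearMap.trace K V (E * flE E (d - 1)) / (d : K) ≠ 0) := by
  subst hd
  set b := Module.finBasis K V with hb
  obtain ⟨h1, h2⟩ := flM_last (LinearMap.toMatrix b b E) hd1
  have h3 : LinearMap.trace K V (E * flE E (Module.finrank K V - 1)) =
      trace (LinearMap.toMatrix b b E * flM (LinearMap.toMatrix b b E)
        (Module.finrank K V - 1)) := by
    rw [LinearMap.trace_eq_matrix_trace K b, LinearMap.toMatrix_mul, toMatrix_flE]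
  rw [h3]
  refine ⟨?_, fun hinj => h2 ?_⟩
  · apply (LinearMap.toMatrix b b).injective
    rw [LinearMap.toMatrix_mul, toMatrix_flE, map_smul, LinearMap.toMatrix_one]
    exact h1
  · rw [LinearMap.det_toMatrix]
    apply (LinearMap.isUnit_iff_isUnit_det E).1
    rw [Module.End.isUnit_iff]
    exact ⟨hinj, LinearMap.injective_iff_surjective.1 hinj⟩

end Lin

end Pool.Agent.Y140.Fib
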