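import Pool.Agent.W498.Dom.Main
import Pool.Agent.Y140.Fib.Defs

/-!
# The filtration of a grading and the leading terms of operators
-/

open Finset

set_option linter.unusedSectionVars false

namespace Pool.Agent.Y140.Fib

open Pool.Agent.H914 Pool.Agent.H447 Pool.Agent.W498.Dom

variable {K : Type*} [Field K] {V : Type*} [AddCommGroup V] [Module K V]

section

variable {P : ℕ → Submodule K V}

lemma piece_le_upTo {p : ℕ} {a : ℤ} (h : (p : ℤ) ≤ a) : P p ≤ upTo P a := by
  intro v hv
  apply Submodule.mem_iSup_of_mem p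
  exact Submodule.mem_iSup_of_mem h hv

lemma upTo_mono {a b : ℤ} (h : a ≤ b) : upTo P a ≤ upTo P b := by
  refine iSup_le fun q => iSup_le fun hq => ?_
  exact piece_le_upTo (le_trans hq h)

lemma upTo_induction {a : ℤ} {p : V → Prop} {v : V} (hv : v ∈ upTo P a)
    (h1 : ∀ q : ℕ, (q : ℤ) ≤ a → ∀ x ∈ P q, p x) (h0 : p 0)
    (hadd : ∀ x y, p x → p y → p (x + y)) : p v := by
  refine Submodule.iSup_induction (fun q : ℕ => ⨆ _ : (q : ℤ) ≤ a, P q) (motive := p) hv ?_ h0 hadd
  intro q x hx
  by_cases hq : (q : ℤ) ≤ a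
  · exact h1 q hq x (by simpa [hq] using hx)
  · have : x = 0 := by simpa [hq] using hx
    rw [this]; exact h0

lemma shifts_iff {δ : ℤ} {T : Module.End K V} :
    Shifts P δ T ↔ ∀ p : ℕ, ∀ v ∈ P p, T v ∈ upTo P (p + δ) := by
  constructor
  · intro h p v hv
    exact h p v (piece_le_upTo le_rfl hv)
  · intro h a v hv
    refine upTo_induction (p := fun v => T v ∈ upTo P (a + δ)) hv ?_ ?_ ?_
    · intro q hq x hx
      exact upTo_mono (by omega) (h q x hx)
    · rw [map_zero]; exact Submodule.zero_mem _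
    · intro x y hx hy
      rw [map_add]; exact Submodule.add_mem _ hx hy

lemma Shifts.add {δ : ℤ} {T U : Module.End K V} (hT : Shifts P δ T) (hU : Shifts P δ U) :
    Shifts P δ (T + U) := fun a v hv => Submodule.add_mem _ (hT a v hv) (hU a v hv)

lemma Shifts.sub {δ : ℤ} {T U : Module.End K V} (hT : Shifts P δ T) (hU : Shifts P δ U) :
    Shifts P δ (T - U) := fun a v hv => Submodule.sub_mem _ (hT a v hv) (hU a v hv)

lemma Shifts.smul {δ : ℤ} {T : Module.End K V} (hT : Shifts P δ T) (c : K) :
    Shifts P δ (c • T) := fun a v hv => Submodule.smul_mem _ _ (hT a v hv)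

lemma Shifts.mul {δ ε : ℤ} {T U : Module.End K V} (hT : Shifts P δ T) (hU : Shifts P ε U) :
    Shifts P (δ + ε) (T * U) := by
  intro a v hv
  have := hT _ _ (hU a v hv)
  rw [show a + (δ + ε) = a + ε + δ by ring]
  exact this

lemma shifts_zero (δ : ℤ) : Shifts P δ (0 : Module.End K V) := fun _ _ _ => Submodule.zero_mem _

lemma shifts_one : Shifts P 0 (1 : Module.End K V) := fun a v hv => by simpa using hv

lemma Shifts.cast {δ ε : ℤ} {T : Module.End K V} (hT : Shifts P δ T) (h : δ = ε) :
    Shifts P ε T := h ▸ hT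

end

section

variable [CharZero K] {P : ℕ → Submodule K V} (iP : DirectSum.IsInternal P) {m : ℕ}
  (bP : ∀ i, 2 * m + 1 ≤ i → P i = ⊥)

include bP

lemma mem_upTo {a : ℤ} {v : V} : v ∈ upTo P a ↔ ∀ q : ℕ, a < q → proj iP q v = 0 := by
  constructor
  · intro hv q hq
    refine upTo_induction (p := fun v => proj iP q v = 0) hv ?_ ?_ ?_
    · intro p hp x hx
      exact proj_ne iP hx (by omega)
    · exact map_zero _
    · intro x y hx hy
      rw [map_add, hx, hy, add_zero]
  · intro hv
    rw [sumP' iP bP v]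
    apply Submodule.sum_mem
    intro q _
    by_cases hq : a < q
    · rw [hv q hq]; exact Submodule.zero_mem _
    · exact piece_le_upTo (by omega) (proj_mem iP q v)

lemma shifts_iff' {δ : ℤ} {T : Module.End K V} :
    Shifts P δ T ↔ ∀ p : ℕ, ∀ v ∈ P p, ∀ q : ℕ, p + δ < q → proj iP q (T v) = 0 := by
  rw [shifts_iff]
  refine forall_congr' fun p => forall_congr' fun v => forall_congr' fun _ => ?_
  exact mem_upTo iP bP

lemma proj_eq_zero_of_le {q : ℕ} (hq : 2 * m + 1 ≤ q) (v : V) : proj iP q v = 0 := by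
  have h1 := proj_mem iP q v
  rw [bP q hq] at h1
  exact (Submodule.mem_bot _).1 h1

end

/-- The component of degree `δ` of an operator. -/
noncomputable def lead {P : ℕ → Submodule K V} (iP : DirectSum.IsInternal P) (m : ℕ) (δ : ℤ)
    (T : Module.End K V) : Module.End K V :=
  ∑ p ∈ range (2 * m + 1), ∑ q ∈ range (2 * m + 1),
    if (q : ℤ) = p + δ then proj iP q * T * proj iP p else 0

section

variable [CharZero K] {P : ℕ → Submodule K V} (iP : DirectSum.IsInternal P) {m : ℕ}
  (bP : ∀ i, 2 * m + 1 ≤ i → P i = ⊥)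

include bP

lemma lead_apply {δ : ℤ} {T : Module.End K V} {p q : ℕ} (hq : (q : ℤ) = p + δ) {v : V}
    (hv : v ∈ P p) : lead iP m δ T v = proj iP q (T v) := by
  by_cases hp : p < 2 * m + 1
  · rw [lead, LinearMap.sum_apply, Finset.sum_eq_single p]
    · rw [LinearMap.sum_apply]
      by_cases hq' : q < 2 * m + 1
      · rw [Finset.sum_eq_single q]
        · rw [if_pos hq, Module.End.mul_apply, Module.End.mul_apply, proj_same iP hv]
        · intro q' _ hne
          rw [if_neg (by omega), LinearMap.zero_apply]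
        · intro h'; exact absurd (Finset.mem_range.2 hq') h'
      · rw [proj_eq_zero_of_le iP bP (by omega)]
        apply Finset.sum_eq_zero
        intro q' hq''
        rw [Finset.mem_range] at hq''
        rw [if_neg (by omega), LinearMap.zero_apply]
    · intro p' _ hp'
      rw [LinearMap.sum_apply]
      apply Finset.sum_eq_zero
      intro q' _
      split_ifs
      · rw [Module.End.mul_apply, proj_ne iP hv (Ne.symm hp'), map_zero]
      · rfl
    · intro h'; exact absurd (Finset.mem_range.2 hp) h'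
  · rw [bP p (by omega)] at hv
    rw [(Submodule.mem_bot _).1 hv, map_zero, map_zero, map_zero]

lemma lead_apply_neg {δ : ℤ} {T : Module.End K V} {p : ℕ} (hp : (p : ℤ) + δ < 0) {v : V}
    (hv : v ∈ P p) : lead iP m δ T v = 0 := by
  rw [lead, LinearMap.sum_apply]
  apply Finset.sum_eq_zero
  intro p' _
  rw [LinearMap.sum_apply]
  apply Finset.sum_eq_zero
  intro q' _
  by_cases hp' : p' = p
  · subst hp'
    rw [if_neg (by omega), LinearMap.zero_apply]
  · split_ifs
    · rw [Module.End.mul_apply, proj_ne iP hv (Ne.symm hp'), map_zero]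
    · rfl

lemma isHom_lead (δ : ℤ) (T : Module.End K V) : IsHom P δ (lead iP m δ T) := by
  intro i a ha
  by_cases hi : 0 ≤ i
  · lift i to ℕ using hi
    rw [grZ_natCast] at ha
    by_cases h : (0 : ℤ) ≤ i + δ
    · obtain ⟨q, hq⟩ := Int.eq_ofNat_of_zero_le h
      rw [lead_apply iP bP (q := q) (by omega) ha, hq, grZ_natCast]
      exact proj_mem iP q _
    · rw [lead_apply_neg iP bP (by omega) ha]
      exact Submodule.zero_mem _
  · rw [grZ_of_neg (by omega)] at ha
    rw [(Submodule.mem_bot _).1 ha, map_zero]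
    exact Submodule.zero_mem _

/-- The leading term of an operator which shifts the filtration. -/
lemma lead_sub_mem {δ : ℤ} {T : Module.End K V} (hT : Shifts P δ T) {p : ℕ} {v : V}
    (hv : v ∈ P p) : T v - lead iP m δ T v ∈ upTo P (p + δ - 1) := by
  rw [mem_upTo iP bP]
  intro q hq
  have h1 := (shifts_iff' iP bP).1 hT p v hv
  by_cases h : (q : ℤ) = p + δ
  · rw [map_sub, lead_apply iP bP h hv, proj_same iP (proj_mem iP q _), sub_self]
  · rw [map_sub, h1 q (by omega), zero_sub, neg_eq_zero]
    by_cases h' : (0 : ℤ) ≤ p + δ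
    · obtain ⟨q', hq'⟩ := Int.eq_ofNat_of_zero_le h'
      rw [lead_apply iP bP (q := q') (by omega) hv]
      exact proj_ne iP (proj_mem iP q' _) (by omega)
    · rw [lead_apply_neg iP bP (by omega) hv, map_zero]

omit bP in
lemma shifts_of_isHom {δ : ℤ} {T : Module.End K V} (hT : IsHom P δ T) : Shifts P δ T := by
  rw [shifts_iff]
  intro p v hv
  have h1 := hT p v (by rw [grZ_natCast]; exact hv)
  by_cases h : (0 : ℤ) ≤ p + δ
  · obtain ⟨q, hq⟩ := Int.eq_ofNat_of_zero_le h
    rw [hq, grZ_natCast] at h1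
    exact piece_le_upTo (by omega) h1
  · rw [grZ_of_neg (by omega)] at h1
    rw [(Submodule.mem_bot _).1 h1]
    exact Submodule.zero_mem _

lemma lead_of_isHom {δ : ℤ} {T : Module.End K V} (hT : IsHom P δ T) : lead iP m δ T = T := by
  apply gr_ext iP
  intro p v hv
  have h1 := hT p v (by rw [grZ_natCast]; exact hv)
  by_cases h : (0 : ℤ) ≤ p + δ
  · obtain ⟨q, hq⟩ := Int.eq_ofNat_of_zero_le h
    rw [hq, grZ_natCast] at h1
    rw [lead_apply iP bP (q := q) (by omega) hv, proj_same iP h1]
  · rw [grZ_of_neg (by omega)] at h1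
    rw [lead_apply_neg iP bP (by omega) hv, (Submodule.mem_bot _).1 h1]

/-- If the difference shifts the filtration by less, the leading terms agree. -/
lemma lead_congr {δ : ℤ} {T U : Module.End K V}
    (h : ∀ p : ℕ, ∀ v ∈ P p, T v - U v ∈ upTo P (p + δ - 1)) : lead iP m δ T = lead iP m δ U := by
  apply gr_ext iP
  intro p v hv
  by_cases h' : (0 : ℤ) ≤ p + δ
  · obtain ⟨q, hq⟩ := Int.eq_ofNat_of_zero_le h'
    rw [lead_apply iP bP (q := q) (by omega) hv, lead_apply iP bP (q := q) (by omega) hv,
      ← sub_eq_zero, ← map_sub]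
    exact (mem_upTo iP bP).1 (h p v hv) q (by omega)
  · rw [lead_apply_neg iP bP (by omega) hv, lead_apply_neg iP bP (by omega) hv]

omit bP in
lemma lead_add (δ : ℤ) (T U : Module.End K V) :
    lead iP m δ (T + U) = lead iP m δ T + lead iP m δ U := by
  rw [lead, lead, lead, ← Finset.sum_add_distrib]
  apply Finset.sum_congr rfl
  intro p _
  rw [← Finset.sum_add_distrib]
  apply Finset.sum_congr rfl
  intro q _
  split_ifs
  · rw [mul_add, add_mul]
  · rw [add_zero]

omit bP in
lemma lead_smul (δ : ℤ) (c : K) (T : Module.End K V) :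
    lead iP m δ (c • T) = c • lead iP m δ T := by
  rw [lead, lead, Finset.smul_sum]
  apply Finset.sum_congr rfl
  intro p _
  rw [Finset.smul_sum]
  apply Finset.sum_congr rfl
  intro q _
  split_ifs
  · rw [mul_smul_comm, smul_mul_assoc]
  · rw [smul_zero]

omit bP in
lemma lead_zero (δ : ℤ) : lead iP m δ (0 : Module.End K V) = 0 := by
  have := lead_smul iP (m := m) δ 0 (0 : Module.End K V)
  rwa [zero_smul, zero_smul] at this

lemma lead_mul {δ ε : ℤ} {T U : Module.End K V} (hT : Shifts P δ T) (hU : Shifts P ε U) :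
    lead iP m (δ + ε) (T * U) = lead iP m δ T * lead iP m ε U := by
  have h1 := (isHom_lead iP bP δ T).mul (isHom_lead iP bP ε U)
  rw [← lead_of_isHom iP bP h1]
  apply lead_congr iP bP
  intro p v hv
  have e1 := lead_sub_mem iP bP hU hv
  have e2 : lead iP m ε U v ∈ upTo P (p + ε) := by
    have := shifts_of_isHom (isHom_lead iP bP ε U)
    exact (shifts_iff).1 this p v hv
  have e3 : T (U v - lead iP m ε U v) ∈ upTo P (p + ε - 1 + δ) := hT _ _ e1
  have e4 : T (lead iP m ε U v) - lead iP m δ T (lead iP m ε U v) ∈ upTo P (p + (δ + ε) - 1) := by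
    by_cases h' : (0 : ℤ) ≤ p + ε
    · obtain ⟨q, hq⟩ := Int.eq_ofNat_of_zero_le h'
      have h2 : lead iP m ε U v ∈ P q := by
        rw [lead_apply iP bP (q := q) (by omega) hv]; exact proj_mem iP q _
      have := lead_sub_mem iP bP hT h2
      rwa [show (q : ℤ) + δ - 1 = p + (δ + ε) - 1 by omega] at this
    · rw [lead_apply_neg iP bP (by omega) hv, map_zero, map_zero, sub_zero]
      exact Submodule.zero_mem _
  rw [Module.End.mul_apply, Module.End.mul_apply]
  have e5 : T (U v) - lead iP m δ T (lead iP m ε U v) = T (U v - lead iP m ε U v) +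
      (T (lead iP m ε U v) - lead iP m δ T (lead iP m ε U v)) := by
    rw [map_sub]; abel
  rw [e5]
  exact Submodule.add_mem _ (upTo_mono (by omega) e3) e4

end

end Pool.Agent.Y140.Fib
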