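import Pool.Agent.Y140.Fib.Extract

/-!
# From the lowering operators of the pencil to the operators with given leading terms
-/

open Finset Polynomial

set_option linter.unusedSectionVars false

namespace Pool.Agent.Y140.Fib

open Pool.Agent.H914 Pool.Agent.H447 Pool.Agent.W498.Dom

variable {K : Type*} [Field K] [CharZero K] {V : Type*} [AddCommGroup V] [Module K V]
  {gr P : ℕ → Submodule K V} {m : ℕ} {h e : Module.End K V} (S : Setup gr P m h e)

include S

/-- Hard Lefschetz for the generic members of the pencil. -/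
lemma generic_hardLef [Module.Finite K V]
    (hdim : ∀ c ≤ m, Module.finrank K (gr (m - c)) = Module.finrank K (gr (m + c))) :
    ∃ w : K[X], w ≠ 0 ∧ ∀ s : K, s ≠ 0 → w.eval s ≠ 0 → HardLef gr m (h + s ^ 2 • e) := by
  obtain ⟨Λ, Λ', -, -, -, t⟩ := S.exists_sl2_both
  have hG : ∀ c' : ℕ, ∃ p : K[X], p ≠ 0 ∧ ∀ s, p.eval s ≠ 0 →
      ∀ v ∈ gr (m - c'), c' ≤ m → (LL S.iP m h e s ^ c') v = 0 → v = 0 := by
    intro c'
    by_cases hc' : c' ≤ m
    · set G : K → gr (m - c') →ₗ[K] V := fun s =>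
        (LL S.iP m h e s ^ c') ∘ₗ (gr (m - c')).subtype with hG
      have hGf : PFam G := fun x => (S.pvec_LL.pfam.pow c') x
      have hG0 : Function.Injective (G 0) := by
        rw [← LinearMap.ker_eq_bot, LinearMap.ker_eq_bot']
        intro y hy
        apply Subtype.ext
        rw [hG] at hy
        simp only [LinearMap.comp_apply, Submodule.subtype_apply] at hy
        rw [S.LL_zero] at hy
        apply e_pow_inj t (c := c') _ hy
        rw [wt_apply S.igr m y.2]
        congr 1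
        rw [Nat.cast_sub hc']
        push_cast; ring
      obtain ⟨p, hp, hp'⟩ := hGf.generic_inj hG0
      refine ⟨p, hp, fun s hs v hv _ h0 => ?_⟩
      have h3 := hp' s hs
      rw [← LinearMap.ker_eq_bot, LinearMap.ker_eq_bot'] at h3
      exact congrArg Subtype.val (h3 ⟨v, hv⟩ h0)
    · exact ⟨1, one_ne_zero, fun s _ v _ h' => absurd h' hc'⟩
  choose pG hpG hpG' using hG
  refine ⟨∏ c' ∈ range (m + 1), pG c', Finset.prod_ne_zero_iff.2 (fun c' _ => hpG c'), ?_⟩
  intro s hs hw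
  rw [eval_prod] at hw
  apply S.hardLef_of_inj hdim hs
  intro c' hc' v hv h0
  exact hpG' c' s (Finset.prod_ne_zero_iff.1 hw c' (Finset.mem_range.2 (by omega))) v hv hc' h0

/-- **The operators with given leading terms.** -/
theorem exists_leads [Module.Finite K V] {R : ℤ → Module.End K V → Prop} (hR : OpAlg gr R)
    (htr : ∀ y, R 0 y → ∃ q : ℚ, LinearMap.trace K V y = q)
    (hdim : ∀ c ≤ m, Module.finrank K (gr (m - c)) = Module.finrank K (gr (m + c)))
    (hh : R 1 h) (he : R 1 e) (hπ : ∀ i, R 0 (proj S.igr i))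
    (hν : ∀ c ≤ m, ∃ ν, R (-c) ν ∧ ∀ a ∈ gr (m + c), ν a = 0 → a = 0) :
    ∃ G G', R (-1) G ∧ Shifts P 0 G ∧ Sl2 (Ha S.igr S.iP m) h (lead S.iP m 0 G) ∧
      R (-1) G' ∧ Shifts P (-2) G' ∧ Sl2 (wt S.iP m) (top S.iP m e) (lead S.iP m (-2) G') := by
  obtain ⟨w, hw, hw'⟩ := generic_hardLef S hdim
  obtain ⟨p, f, hpR, hpf⟩ := exists_lower_poly hR S.igr S.bgr htr hh he hπ hν
  have hf0 : f ≠ 0 := by
    rintro rfl
    obtain ⟨s, hs, hws⟩ := exists_nonroot w hw
    have := (hpf s (hw' s hs hws)).1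
    rw [Polynomial.map_zero, eval_zero] at this
    exact this rfl
  obtain ⟨g, hg, hndvd⟩ := Polynomial.exists_eq_pow_rootMultiplicity_mul_and_not_dvd f hf0 0
  set b := f.rootMultiplicity 0 with hb
  rw [C_0, sub_zero] at hg hndvd
  have hg0 : g.coeff 0 ≠ 0 := by
    intro h0
    apply hndvd
    rw [X_dvd_iff]
    exact h0
  set u : K[X] := g.map (algebraMap ℚ K) with hu
  have hu0 : u.coeff 0 = ((g.coeff 0 : ℚ) : K) := by
    rw [hu, coeff_map]; rfl
  have hu0' : u.coeff 0 ≠ 0 := by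
    rw [hu0]; exact_mod_cast hg0
  obtain ⟨Λ, Λ', t1, t2, s1, l1, s2, l2⟩ := extract S (p := X ^ 2 * p)
    (t := X ^ 2 * f.map (algebraMap ℚ K)) (u := u) (a := b + 2)
    (by
      conv_lhs => rw [hg]
      rw [Polynomial.map_mul, Polynomial.map_pow, map_X, ← hu, pow_add]
      ring) hu0' (by omega) hw
    (by
      intro s hs hws
      obtain ⟨-, F, tF, hF⟩ := hpf s (hw' s hs hws)
      refine ⟨F, tF, ?_⟩
      rw [map_mul, map_pow, evs_X, hF, _root_.smul_pow, one_pow, smul_mul_assoc, one_mul,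
        smul_smul, eval_mul, eval_pow, eval_X])
  rw [show b + 2 - 2 = b by omega] at s2 l2
  have hcoeff : ∀ k, R (-1) ((X ^ 2 * p).coeff k) := PolyIn.X_pow_mul hR hpR 2
  refine ⟨(((g.coeff 0)⁻¹ : ℚ) : K) • (X ^ 2 * p).coeff (b + 2),
    (((g.coeff 0)⁻¹ : ℚ) : K) • (X ^ 2 * p).coeff b, hR.smul _ (hcoeff _), s1.smul _, ?_,
    hR.smul _ (hcoeff _), s2.smul _, ?_⟩
  · rw [lead_smul, l1, hu0, smul_smul, ← Rat.cast_mul, inv_mul_cancel₀ hg0, Rat.cast_one,
      one_smul]
    exact t1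
  · rw [lead_smul, l2, hu0, smul_smul, ← Rat.cast_mul, inv_mul_cancel₀ hg0, Rat.cast_one,
      one_smul]
    exact t2

end Pool.Agent.Y140.Fib
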