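import Pool.Agent.Y140.Fib.Fwd

/-!
# The Lambda operator from the lowering operator
-/

open Finset Polynomial

set_option linter.unusedSectionVars false

namespace Pool.Agent.Y140.Fib

open Pool.Agent.H914 Pool.Agent.H447 Pool.Agent.W498.Dom

variable {K : Type*} [Field K] [CharZero K] {V : Type*} [AddCommGroup V] [Module K V]
  {gr : ℕ → Submodule K V} {n : ℕ} {L : Module.End K V}

/-- The lowering operator is unique. -/
lemma sl2_unique [Module.Finite K V] {H e f f' : Module.End K V} (t : Sl2 H e f)
    (t' : Sl2 H e f') : f = f' := by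
  have ta := Pool.Agent.W537.sl2_adL (K := K) t
  rw [← sub_eq_zero]
  apply e_pow_inj ta (c := 2)
  · rw [Pool.Agent.W537.adL_apply]
    have h1 := t.hf
    have h2 := t'.hf
    have h3 : H * (f - f') - (f - f') * H = (H * f - f * H) - (H * f' - f' * H) := by noncomm_ring
    rw [h3, h1, h2]
    have h4 : -((2 : ℕ) : K) • (f - f') = -(2 * (f - f')) := by
      rw [neg_smul, Nat.cast_smul_eq_nsmul, nsmul_eq_mul]
      push_cast; rfl
    rw [h4]
    noncomm_ring
  · have h3 : (Pool.Agent.W537.adL K e) (f - f') = 0 := by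
      rw [Pool.Agent.W537.adL_apply]
      have h4 : e * (f - f') - (f - f') * e = (e * f - f * e) - (e * f' - f' * e) := by
        noncomm_ring
      rw [h4, t.ef, t'.ef, sub_self]
    rw [pow_two, Module.End.mul_apply, h3, map_zero]

lemma ev_eigen {E : Module.End K V} {x : V} {l : ℚ} (hx : E x = (l : K) • x) (q : ℚ[X]) :
    ev E q x = ((q.eval l : ℚ) : K) • x := by
  have hpow : ∀ r : ℕ, (E ^ r) x = ((l ^ r : ℚ) : K) • x := by
    intro r
    induction r with
    | zero => simp
    | succ r ih =>
      rw [pow_succ', Module.End.mul_apply, ih, map_smul, hx, smul_smul]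
      congr 1
      push_cast; ring
  induction q using Polynomial.induction_on' with
  | add a b ha hb => rw [map_add, LinearMap.add_apply, ha, hb, eval_add, ← add_smul]; push_cast; rfl
  | monomial r c =>
    rw [← C_mul_X_pow_eq_monomial, map_mul, map_pow, ev_C, ev_X, smul_mul_assoc, one_mul,
      LinearMap.smul_apply, hpow, smul_smul, eval_mul, eval_C, eval_pow, eval_X]
    congr 1
    push_cast; ring

/-- The eigenvalues of `f ^ c L ^ c`. -/
def lamb (c j : ℕ) : ℚ := ∏ r ∈ range c, (((c : ℚ) + j - r) * (j + r + 1))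

lemma lamb_ne (c j : ℕ) : lamb c j ≠ 0 := by
  rw [lamb]
  apply Finset.prod_ne_zero_iff.2
  intro r hr
  rw [Finset.mem_range] at hr
  apply mul_ne_zero
  · have h1 : (r : ℚ) < c := by exact_mod_cast hr
    have h2 : (0 : ℚ) ≤ j := by positivity
    intro h0
    linarith
  · positivity

lemma f_pow_string {f : Module.End K V}
    (hf : ∀ i ≤ n, ∀ a ∈ gr i, (L ^ (n - i + 1)) a = 0 → ∀ j ≤ n - i,
      f ((L ^ j) a) = ((j : K) * (((n - i : ℕ) : K) - j + 1)) • (L ^ (j - 1)) a)
    {c j i : ℕ} (hi : i ≤ n) (hcj : n - i = c + 2 * j) {a : V} (ha : a ∈ gr i)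
    (hp : (L ^ (n - i + 1)) a = 0) : ∀ k ≤ c, (f ^ k) ((L ^ (c + j)) a) =
      ((∏ r ∈ range k, (((c : ℚ) + j - r) * (j + r + 1)) : ℚ) : K) • (L ^ (c + j - k)) a := by
  intro k
  induction k with
  | zero => intro _; simp
  | succ k ih =>
    intro hk
    rw [pow_succ', Module.End.mul_apply, ih (by omega), map_smul,
      hf i hi a ha hp (c + j - k) (by omega), smul_smul, Finset.prod_range_succ,
      show c + j - k - 1 = c + j - (k + 1) by omega]
    congr 1
    rw [hcj, Nat.cast_sub (by omega)]
    push_cast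
    ring

/-- **The Lambda operator is in the algebra if the lowering operator is.** -/
theorem lam_of_lower [Module.Finite K V] {R : ℤ → Module.End K V → Prop} (hR : OpAlg gr R)
    (h : DirectSum.IsInternal gr) (hbd : ∀ i, 2 * n + 1 ≤ i → gr i = ⊥) (hL : R 1 L)
    (hHL : HardLef gr n L) {f : Module.End K V} (hfR : R (-1) f) (t : Sl2 (wt h n) L f) :
    ∃ Φ, R (-1) Φ ∧ IsLam gr n L Φ := by
  have hLh : IsHom gr 2 L := by simpa using hR.hom hL
  obtain ⟨f', t', -, hf'⟩ := exists_sl2 h hLh hbd hHL
  obtain rfl := sl2_unique t t'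
  apply hR.exists_lam h hbd hL hHL
  intro c hc
  set T : Finset ℚ := (range (n + 1)).image (lamb c) with hT
  set q : ℚ[X] := Lagrange.interpolate T id (fun x => x⁻¹) with hq
  have hqe : ∀ j ≤ n, q.eval (lamb c j) = (lamb c j)⁻¹ := by
    intro j hj
    have := Lagrange.eval_interpolate_at_node (s := T) (v := id) (fun x : ℚ => x⁻¹)
      Function.injective_id.injOn (i := lamb c j)
      (by rw [hT]; exact Finset.mem_image_of_mem _ (Finset.mem_range.2 (by omega)))
    exact this
  have hER : R 0 (f ^ c * L ^ c) :=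
    hR.cast (hR.mul (hR.pow hfR c) (hR.pow hL c)) (by ring)
  refine ⟨ev (f ^ c * L ^ c) q * f ^ c,
    hR.cast (hR.mul (hR.ev hER q) (hR.pow hfR c)) (by ring), ?_⟩
  have key := lef_induction hLh hbd hHL (p := fun d x => d = n - c →
    (ev (f ^ c * L ^ c) q * f ^ c) ((L ^ c) x) = x)
    (by
      intro i a b ha hb hi
      rw [map_add, map_add, ha hi, hb hi])
    (by
      intro i hi a ha hp j hij
      have h1 : n - i = c + 2 * j := by omega
      have h2 : (f ^ c * L ^ c) ((L ^ j) a) = ((lamb c j : ℚ) : K) • (L ^ j) a := by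
        rw [Module.End.mul_apply, ← Module.End.mul_apply (L ^ c), ← pow_add,
          f_pow_string hf' hi h1 ha hp c le_rfl, show c + j - c = j by omega]
        rfl
      rw [Module.End.mul_apply, ← Module.End.mul_apply (f ^ c), h2, map_smul,
        ev_eigen h2, hqe j (by omega), smul_smul, ← Rat.cast_mul,
        mul_inv_cancel₀ (lamb_ne c j), Rat.cast_one, one_smul])
  intro a ha
  have := key (n - c) (by omega) a ha 0 (by omega)
  simpa using this

end Pool.Agent.Y140.Fib
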