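import Pool.Agent.Y140.Fib.RPol

/-!
# The lowering operator as a linear expression in the inverses of the powers of `L`
-/

open Finset Polynomial

set_option linter.unusedSectionVars false

namespace Pool.Agent.Y140.Fib

open Pool.Agent.H914 Pool.Agent.H447 Pool.Agent.W498.Dom

section Expr

variable {A B : Type*} [Ring A] [Ring B]

/-- The first part of the expression. -/
def lowA (n : ℕ) (L : A) (θ π : ℕ → A) : A :=
  ∑ c ∈ range (n + 1), ∑ r ∈ range (n + 1), if 1 ≤ r ∧ c + 2 * r ≤ n then
    ((c + 2 * r : ℕ) : A) * (L ^ (r - 1) * θ (c + 2 * r) * L ^ (c + r) * π (n - c)) else 0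

/-- The second part of the expression. -/
def lowB (n : ℕ) (L : A) (θ π : ℕ → A) : A :=
  ∑ c ∈ range (n + 1), ∑ r ∈ range (n + 1), if 1 ≤ c ∧ c + 2 * r ≤ n then
    ((c + 2 * r : ℕ) : A) * (L ^ (c + r - 1) * θ (c + 2 * r) * L ^ r * π (n + c)) else 0

lemma map_lowA (φ : A →+* B) (n : ℕ) (L : A) (θ π : ℕ → A) :
    φ (lowA n L θ π) = lowA n (φ L) (fun i => φ (θ i)) (fun i => φ (π i)) := by
  simp only [lowA, map_sum, apply_ite φ, map_mul, map_pow, map_natCast, map_zero]

lemma map_lowB (φ : A →+* B) (n : ℕ) (L : A) (θ π : ℕ → A) :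
    φ (lowB n L θ π) = lowB n (φ L) (fun i => φ (θ i)) (fun i => φ (π i)) := by
  simp only [lowB, map_sum, apply_ite φ, map_mul, map_pow, map_natCast, map_zero]

end Expr

section Scalars

variable {K : Type*} [Field K]

lemma sum_low1 {n j : ℕ} (hj : j ≤ n) (c : ℕ) :
    ∑ r ∈ range (n + 1), (if 1 ≤ r ∧ r ≤ j then ((c + 2 * r : ℕ) : K) else 0) =
      (j : K) * (c + j + 1) := by
  have h1 : ∑ r ∈ range (n + 1), (if 1 ≤ r ∧ r ≤ j then ((c + 2 * r : ℕ) : K) else 0) =
      ∑ r ∈ range (j + 1), (if 1 ≤ r then ((c + 2 * r : ℕ) : K) else 0) := by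
    rw [← Finset.sum_subset (s₁ := range (j + 1))]
    · apply Finset.sum_congr rfl
      intro r hr
      rw [Finset.mem_range] at hr
      by_cases h : 1 ≤ r
      · rw [if_pos ⟨h, by omega⟩, if_pos h]
      · rw [if_neg (by omega), if_neg h]
    · intro r hr
      rw [Finset.mem_range] at hr ⊢
      omega
    · intro r _ hr
      rw [Finset.mem_range] at hr
      rw [if_neg (by omega)]
  rw [h1]
  clear h1 hj
  induction j with
  | zero => simp
  | succ j ih =>
    rw [Finset.sum_range_succ, ih, if_pos (by omega)]
    push_cast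
    ring

lemma sum_low2 {n j : ℕ} (hj : j ≤ n) (c : ℕ) :
    ∑ r ∈ range (n + 1), (if r ≤ j then ((c + 2 * r : ℕ) : K) else 0) =
      ((j : K) + 1) * (c + j) := by
  have h1 : ∑ r ∈ range (n + 1), (if r ≤ j then ((c + 2 * r : ℕ) : K) else 0) =
      ∑ r ∈ range (j + 1), ((c + 2 * r : ℕ) : K) := by
    rw [← Finset.sum_subset (s₁ := range (j + 1))]
    · apply Finset.sum_congr rfl
      intro r hr
      rw [Finset.mem_range] at hr
      rw [if_pos (by omega)]
    · intro r hr
      rw [Finset.mem_range] at hr ⊢
      omega
    · intro r _ hr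
      rw [Finset.mem_range] at hr
      rw [if_neg (by omega)]
  rw [h1]
  clear h1 hj
  induction j with
  | zero => simp
  | succ j ih =>
    rw [Finset.sum_range_succ, ih]
    push_cast
    ring

end Scalars

variable {K : Type*} [Field K] [CharZero K] {V : Type*} [AddCommGroup V] [Module K V]
  {gr : ℕ → Submodule K V} {n : ℕ} {L : Module.End K V}

lemma natCast_apply (k : ℕ) (x : V) : ((k : Module.End K V)) x = (k : K) • x := by
  rw [Module.End.natCast_apply, Nat.cast_smul_eq_nsmul]

/-- **The lowering operator as a linear expression.** -/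
theorem smul_lower_eq (h : DirectSum.IsInternal gr) (hL : IsHom gr 2 L)
    (hbd : ∀ i, 2 * n + 1 ≤ i → gr i = ⊥) (hHL : HardLef gr n L) {θ : ℕ → Module.End K V} {t : K}
    (hθ : ∀ c ≤ n, ∀ a ∈ gr (n - c), θ c ((L ^ c) a) = t • a) {F : Module.End K V}
    (hF : ∀ i ≤ n, ∀ a ∈ gr i, (L ^ (n - i + 1)) a = 0 → ∀ j ≤ n - i,
      F ((L ^ j) a) = ((j : K) * (((n - i : ℕ) : K) - j + 1)) • (L ^ (j - 1)) a) :
    t • F = lowA n L θ (fun i => proj h i) + lowB n L θ (fun i => proj h i) := by
  apply LinearMap.ext
  intro x
  refine lef_induction' h hL hbd hHL (p := fun x => (t • F) x =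
    (lowA n L θ (fun i => proj h i) + lowB n L θ (fun i => proj h i)) x) ?_ ?_ x
  · intro a b ha hb; rw [map_add, map_add, ha, hb]
  intro i hi a ha hp j
  by_cases hj : j ≤ n - i
  swap
  · rw [L_pow_gt hp (by omega), map_zero, map_zero]
  have hmem := pow_L_mem hL ha j
  obtain ⟨w, hw⟩ : ∃ w, w = n - i := ⟨_, rfl⟩
  have hpow : ∀ k, w < k → (L ^ k) a = 0 := fun k hk => L_pow_gt hp (by omega)
  have hθ' : ∀ c ≤ n, ∀ k, c + k ≤ n → i + 2 * k = n - c →
      θ c ((L ^ (c + k)) a) = t • (L ^ k) a := by
    intro c hc k _ hk
    rw [pow_add, Module.End.mul_apply]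
    apply hθ c hc
    rw [← hk]
    exact pow_L_mem hL ha k
  rw [LinearMap.smul_apply, hF i hi a ha hp j hj, ← hw, LinearMap.add_apply]
  by_cases hcase : 2 * j ≤ w
  · -- below the middle
    obtain ⟨c, hc⟩ : ∃ c, c + 2 * j = w := ⟨w - 2 * j, by omega⟩
    have hA : lowA n L θ (fun i => proj h i) ((L ^ j) a) =
        (((j : K) * (c + j + 1)) * t) • (L ^ (j - 1)) a := by
      rw [lowA, LinearMap.sum_apply, Finset.sum_eq_single c]
      · rw [LinearMap.sum_apply, ← sum_low1 (n := n) (j := j) (by omega) c, Finset.sum_mul,
          Finset.sum_smul]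
        apply Finset.sum_congr rfl
        intro r _
        by_cases hr : 1 ≤ r ∧ r ≤ j
        · rw [if_pos ⟨hr.1, by omega⟩, if_pos hr]
          simp only [Module.End.mul_apply]
          rw [proj_same h (by rw [show n - c = i + 2 * j by omega]; exact hmem),
            ← Module.End.mul_apply (L ^ (c + r)), ← pow_add,
            show c + r + j = (c + 2 * r) + (j - r) by omega,
            hθ' (c + 2 * r) (by omega) (j - r) (by omega) (by omega), map_smul,
            ← Module.End.mul_apply, ← pow_add, show r - 1 + (j - r) = j - 1 by omega,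
            natCast_apply, smul_smul]
        · rw [if_neg hr, zero_mul, zero_smul]
          split_ifs with h'
          · simp only [Module.End.mul_apply]
            rw [proj_same h (by rw [show n - c = i + 2 * j by omega]; exact hmem),
              ← Module.End.mul_apply (L ^ (c + r)), ← pow_add, hpow _ (by omega), map_zero,
              map_zero, map_zero]
          · rfl
      · intro c' hc' hne
        rw [Finset.mem_range] at hc'
        rw [LinearMap.sum_apply]
        apply Finset.sum_eq_zero
        intro r _
        split_ifs with h'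
        · simp only [Module.End.mul_apply]
          rw [proj_ne h hmem (by omega), map_zero, map_zero, map_zero, map_zero]
        · rfl
      · intro h'; exact absurd (Finset.mem_range.2 (by omega)) h'
    have hB : lowB n L θ (fun i => proj h i) ((L ^ j) a) = 0 := by
      rw [lowB, LinearMap.sum_apply]
      apply Finset.sum_eq_zero
      intro c' _
      rw [LinearMap.sum_apply]
      apply Finset.sum_eq_zero
      intro r _
      split_ifs with h'
      · simp only [Module.End.mul_apply]
        rw [proj_ne h hmem (by omega), map_zero, map_zero, map_zero, map_zero]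
      · rfl
    rw [hA, hB, add_zero, smul_smul]
    congr 1
    rw [← hc]
    push_cast
    ring
  · -- above the middle
    obtain ⟨c, hc⟩ : ∃ c, 2 * j = w + c := ⟨2 * j - w, by omega⟩
    have hA : lowA n L θ (fun i => proj h i) ((L ^ j) a) = 0 := by
      rw [lowA, LinearMap.sum_apply]
      apply Finset.sum_eq_zero
      intro c' hc'
      rw [Finset.mem_range] at hc'
      rw [LinearMap.sum_apply]
      apply Finset.sum_eq_zero
      intro r _
      split_ifs with h'
      · simp only [Module.End.mul_apply]
        rw [proj_ne h hmem (by omega), map_zero, map_zero, map_zero, map_zero]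
      · rfl
    have hB : lowB n L θ (fun i => proj h i) ((L ^ j) a) =
        (((((w - j : ℕ) : K) + 1) * (c + (w - j : ℕ))) * t) • (L ^ (j - 1)) a := by
      rw [lowB, LinearMap.sum_apply, Finset.sum_eq_single c]
      · rw [LinearMap.sum_apply, ← sum_low2 (n := n) (j := w - j) (by omega) c, Finset.sum_mul,
          Finset.sum_smul]
        apply Finset.sum_congr rfl
        intro r _
        by_cases hr : r ≤ w - j
        · rw [if_pos ⟨by omega, by omega⟩, if_pos hr]
          simp only [Module.End.mul_apply]
          rw [proj_same h (by rw [show n + c = i + 2 * j by omega]; exact hmem),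
            ← Module.End.mul_apply (L ^ r), ← pow_add,
            show r + j = (c + 2 * r) + (w - j - r) by omega,
            hθ' (c + 2 * r) (by omega) (w - j - r) (by omega) (by omega), map_smul,
            ← Module.End.mul_apply, ← pow_add, show c + r - 1 + (w - j - r) = j - 1 by omega,
            natCast_apply, smul_smul]
        · rw [if_neg hr, zero_mul, zero_smul]
          split_ifs with h'
          · simp only [Module.End.mul_apply]
            rw [proj_same h (by rw [show n + c = i + 2 * j by omega]; exact hmem),
              ← Module.End.mul_apply (L ^ r), ← pow_add, hpow _ (by omega), map_zero,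
              map_zero, map_zero]
          · rfl
      · intro c' _ hne
        rw [LinearMap.sum_apply]
        apply Finset.sum_eq_zero
        intro r _
        split_ifs with h'
        · simp only [Module.End.mul_apply]
          rw [proj_ne h hmem (by omega), map_zero, map_zero, map_zero, map_zero]
        · rfl
      · intro h'; exact absurd (Finset.mem_range.2 (by omega)) h'
    rw [hA, hB, zero_add, smul_smul]
    congr 1
    have e1 : ((w - j : ℕ) : K) = (w : K) - j := by
      rw [Nat.cast_sub (by omega)]
    have e2 : (c : K) = 2 * j - w := by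
      have : ((2 * j : ℕ) : K) = ((w + c : ℕ) : K) := by rw [hc]
      push_cast at this
      linear_combination -this
    rw [e1, e2]
    ring

end Pool.Agent.Y140.Fib
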