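import Pool.Agent.Y140.Fib.Low

/-!
# The lowering operators of a pencil of Lefschetz operators
-/

open Finset Polynomial

set_option linter.unusedSectionVars false

namespace Pool.Agent.Y140.Fib

open Pool.Agent.H914 Pool.Agent.H447 Pool.Agent.W498.Dom

variable {K : Type*} [Field K] [CharZero K] {V : Type*} [AddCommGroup V] [Module K V]
  {gr : ℕ → Submodule K V} {n : ℕ} {R : ℤ → Module.End K V → Prop} (hR : OpAlg gr R)

include hR

lemma polyIn_natCast_mul {d : ℤ} {p : (Module.End K V)[X]} (hp : PolyIn R d p) (k : ℕ) :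
    PolyIn R d ((k : (Module.End K V)[X]) * p) := by
  have h1 : PolyIn R 0 ((k : ℕ) : (Module.End K V)[X]) := by
    have h2 := PolyIn.qp hR (Polynomial.C (k : ℚ))
    rw [qp, map_C, RingHom.comp_apply, map_natCast, map_natCast, map_natCast] at h2
    exact h2
  exact PolyIn.cast hR (PolyIn.mul hR h1 hp) (by ring)

lemma polyIn_low {L : (Module.End K V)[X]} (hL : PolyIn R 1 L) {θ π : ℕ → (Module.End K V)[X]}
    (hθ : ∀ c : ℕ, PolyIn R (-c) (θ c)) (hπ : ∀ i, PolyIn R 0 (π i)) :
    PolyIn R (-1) (lowA n L θ π + lowB n L θ π) := by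
  apply PolyIn.add hR
  · apply PolyIn.sum hR
    intro c _
    apply PolyIn.sum hR
    intro r _
    split_ifs with h
    · apply polyIn_natCast_mul hR
      refine PolyIn.cast hR (PolyIn.mul hR (PolyIn.mul hR (PolyIn.mul hR
        (PolyIn.pow hR hL (r - 1)) (hθ (c + 2 * r))) (PolyIn.pow hR hL (c + r))) (hπ _)) ?_
      push_cast [Nat.cast_sub h.1]
      ring
    · exact PolyIn.zero hR _
  · apply PolyIn.sum hR
    intro c _
    apply PolyIn.sum hR
    intro r _
    split_ifs with h
    · apply polyIn_natCast_mul hR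
      refine PolyIn.cast hR (PolyIn.mul hR (PolyIn.mul hR (PolyIn.mul hR
        (PolyIn.pow hR hL (c + r - 1)) (hθ (c + 2 * r))) (PolyIn.pow hR hL r)) (hπ _)) ?_
      push_cast [Nat.cast_sub (show 1 ≤ c + r by omega)]
      ring
    · exact PolyIn.zero hR _

/-- **The lowering operators of a pencil are a rational family with rational coefficients.** -/
theorem exists_lower_poly [Module.Finite K V] (igr : DirectSum.IsInternal gr)
    (bgr : ∀ i, 2 * n + 1 ≤ i → gr i = ⊥)
    (htr : ∀ y, R 0 y → ∃ q : ℚ, LinearMap.trace K V y = q) {h e : Module.End K V}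
    (hh : R 1 h) (he : R 1 e) (hπ : ∀ i, R 0 (proj igr i))
    (hν : ∀ c ≤ n, ∃ ν, R (-c) ν ∧ ∀ a ∈ gr (n + c), ν a = 0 → a = 0) :
    ∃ (p : (Module.End K V)[X]) (f : ℚ[X]), PolyIn R (-1) p ∧
      ∀ s : K, HardLef gr n (h + s ^ 2 • e) → (f.map (algebraMap ℚ K)).eval s ≠ 0 ∧
        ∃ F, Sl2 (wt igr n) (h + s ^ 2 • e) F ∧
          evs s p = ((f.map (algebraMap ℚ K)).eval s) • F := by
  classical
  set Lp : (Module.End K V)[X] := C h + X ^ 2 * C e with hLp
  have hLpR : PolyIn R 1 Lp :=
    PolyIn.add hR (PolyIn.C hR hh) (PolyIn.X_pow_mul hR (PolyIn.C hR he) 2)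
  have hLs : ∀ s : K, evs s Lp = h + s ^ 2 • e := by
    intro s
    rw [hLp, map_add, map_mul, map_pow, evs_C, evs_X, evs_C, _root_.smul_pow, one_pow,
      smul_mul_assoc, one_mul]
  have hLh : ∀ s : K, IsHom gr 2 (h + s ^ 2 • e) := by
    intro s
    have h1 : IsHom gr 2 h := by simpa using hR.hom hh
    have h2 : IsHom gr 2 e := by simpa using hR.hom he
    exact h1.add (h2.smul _)
  have key : ∀ c : ℕ, ∃ (T : (Module.End K V)[X]) (f : ℚ[X]), PolyIn R (-c) T ∧
      (∀ s : K, HardLef gr n (h + s ^ 2 • e) → (f.map (algebraMap ℚ K)).eval s ≠ 0) ∧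
      (c ≤ n → ∀ s : K, HardLef gr n (h + s ^ 2 • e) → ∀ a ∈ gr (n - c),
        evs s T (((h + s ^ 2 • e) ^ c) a) = ((f.map (algebraMap ℚ K)).eval s) • a) := by
    intro c
    by_cases hc : c ≤ n
    swap
    · exact ⟨0, 1, PolyIn.zero hR _, fun s _ => by rw [Polynomial.map_one, eval_one]; exact
        one_ne_zero, fun h => absurd h hc⟩
    obtain ⟨ν, hνR, hinj⟩ := hν c hc
    set Ep : (Module.End K V)[X] := C ν * Lp ^ c * C (proj igr (n - c)) +
      C (1 - proj igr (n - c)) with hEp
    have hEpR : PolyIn R 0 Ep := by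
      apply PolyIn.add hR
      · exact PolyIn.cast hR (PolyIn.mul hR (PolyIn.mul hR (PolyIn.C hR hνR)
          (PolyIn.pow hR hLpR c)) (PolyIn.C hR (hπ _))) (by ring)
      · exact PolyIn.C hR (hR.sub hR.one (hπ _))
    have hEs : ∀ s : K, evs s Ep = ν * (h + s ^ 2 • e) ^ c * proj igr (n - c) +
        (1 - proj igr (n - c)) := by
      intro s
      rw [hEp, map_add, map_mul, map_mul, map_pow, evs_C, evs_C, evs_C, hLs]
    have hmem : ∀ s : K, ∀ a ∈ gr (n - c), ((h + s ^ 2 • e) ^ c) a ∈ gr (n + c) := by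
      intro s a ha
      have := pow_L_mem (hLh s) ha c
      rwa [show n - c + 2 * c = n + c by omega] at this
    have hmem' : ∀ s : K, ∀ a ∈ gr (n - c), ν (((h + s ^ 2 • e) ^ c) a) ∈ gr (n - c) := by
      intro s a ha
      have h1 := hR.hom hνR (n + c : ℕ) _ (by rw [grZ_natCast]; exact hmem s a ha)
      rwa [show ((n + c : ℕ) : ℤ) + 2 * (-c : ℤ) = ((n - c : ℕ) : ℤ) by omega,
        grZ_natCast] at h1
    obtain ⟨G, f, hG, hGE, hf⟩ := exists_adj hR htr hEpR
    refine ⟨G * C ν, f, PolyIn.cast hR (PolyIn.mul hR hG (PolyIn.C hR hνR)) (by ring), ?_, ?_⟩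
    · intro s hs
      apply hf
      rw [← LinearMap.ker_eq_bot, LinearMap.ker_eq_bot']
      intro v hv
      have h0 := hv
      rw [hEs, LinearMap.add_apply, Module.End.mul_apply, Module.End.mul_apply,
        LinearMap.sub_apply, Module.End.one_apply] at hv
      have hpm := proj_mem igr (n - c) v
      have h1 := congrArg (proj igr (n - c)) hv
      rw [map_add, map_sub, proj_same igr (hmem' s _ hpm), proj_same igr hpm, sub_self,
        add_zero, map_zero] at h1
      have h2 := hinj _ (hmem s _ hpm) h1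
      have h3 : proj igr (n - c) v = 0 := by
        refine (hs (n - c) (by omega)).1 _ hpm ?_
        rw [show n - (n - c) = c by omega]
        exact h2
      rw [h1, zero_add, h3, sub_zero] at hv
      exact hv
    · intro _ s _ a ha
      have h1 := congrArg (fun F => F a) (hGE s)
      simp only [Module.End.mul_apply, LinearMap.smul_apply, Module.End.one_apply] at h1
      rw [← h1, hEs, map_mul, evs_C]
      simp only [Module.End.mul_apply, LinearMap.add_apply, LinearMap.sub_apply,
        Module.End.one_apply]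
      rw [proj_same igr ha, sub_self, add_zero]
  choose T f hT hf hTf using key
  set ff : ℚ[X] := ∏ c ∈ range (n + 1), f c with hff
  set θp : ℕ → (Module.End K V)[X] := fun c =>
    qp (∏ j ∈ (range (n + 1)).erase c, f j) * T c with hθp
  refine ⟨lowA n Lp θp (fun i => C (proj igr i)) + lowB n Lp θp (fun i => C (proj igr i)), ff,
    polyIn_low hR hLpR (fun c => PolyIn.cast hR (PolyIn.mul hR (PolyIn.qp hR _) (hT c)) (by ring))
      (fun i => PolyIn.C hR (hπ i)), ?_⟩
  intro s hs
  refine ⟨?_, ?_⟩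
  · rw [hff, Polynomial.map_prod, eval_prod]
    exact Finset.prod_ne_zero_iff.2 (fun c _ => hf c s hs)
  · obtain ⟨F, tF, -, hF⟩ := exists_sl2 igr (hLh s) bgr hs
    refine ⟨F, tF, ?_⟩
    rw [map_add, map_lowA, map_lowB, hLs]
    simp only [evs_C]
    symm
    apply smul_lower_eq igr (hLh s) bgr hs _ hF
    intro c hc a ha
    simp only [hθp]
    rw [map_mul, evs_qp, smul_mul_assoc, one_mul, LinearMap.smul_apply, hTf c hc s hs a ha,
      smul_smul, ← eval_mul, ← Polynomial.map_mul, hff,
      Finset.prod_erase_mul _ _ (Finset.mem_range.2 (by omega))]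

end Pool.Agent.Y140.Fib
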