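import Pool.Agent.Y140.Fib.FL
import Pool.Agent.Y140.Fib.Bwd

/-!
# Polynomial families of operators in a graded algebra
-/

open Finset Polynomial

set_option linter.unusedSectionVars false

namespace Pool.Agent.Y140.Fib

open Pool.Agent.H914 Pool.Agent.H447 Pool.Agent.W498.Dom

variable {K : Type*} [Field K] {V : Type*} [AddCommGroup V] [Module K V]

/-- The value at the scalar `s` of a polynomial with operators as coefficients. -/
noncomputable def evs (s : K) : (Module.End K V)[X] →+* Module.End K V :=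
  eval₂RingHom' (RingHom.id _) (algebraMap K (Module.End K V) s)
    (fun a => (Algebra.commutes s a).symm)

@[simp] lemma evs_C (s : K) (T : Module.End K V) : evs s (C T) = T := by
  simp [evs]

@[simp] lemma evs_X (s : K) : evs (V := V) s X = s • 1 := by
  simp [evs, Algebra.algebraMap_eq_smul_one]

lemma evs_eq_sum (s : K) (p : (Module.End K V)[X]) :
    evs s p = ∑ k ∈ range (p.natDegree + 1), s ^ k • p.coeff k := by
  conv_lhs => rw [p.as_sum_range_C_mul_X_pow]
  rw [map_sum]
  apply Finset.sum_congr rfl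
  intro k _
  rw [map_mul, map_pow, evs_C, evs_X, _root_.smul_pow, one_pow, mul_smul_comm, mul_one]

variable [CharZero K]

/-- The polynomial of scalar operators given by a polynomial with rational coefficients. -/
noncomputable def qp (f : ℚ[X]) : (Module.End K V)[X] :=
  f.map ((algebraMap K (Module.End K V)).comp (algebraMap ℚ K))

lemma evs_qp (s : K) (f : ℚ[X]) :
    evs (V := V) s (qp f) = ((f.map (algebraMap ℚ K)).eval s) • 1 := by
  induction f using Polynomial.induction_on' with
  | add a b ha hb =>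
    rw [Polynomial.map_add, eval_add, add_smul, ← ha, ← hb, qp, qp, qp, Polynomial.map_add,
      map_add]
  | monomial r c =>
    rw [qp, map_monomial, map_monomial, eval_monomial, ← C_mul_X_pow_eq_monomial, map_mul,
      map_pow, evs_C, evs_X, _root_.smul_pow, one_pow, mul_smul_comm, mul_one, RingHom.comp_apply,
      Algebra.algebraMap_eq_smul_one, smul_smul, mul_comm]

/-- All coefficients of the polynomial are in the algebra, in degree `d`. -/
def PolyIn (R : ℤ → Module.End K V → Prop) (d : ℤ) (p : (Module.End K V)[X]) : Prop :=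
  ∀ k, R d (p.coeff k)

section

variable {gr : ℕ → Submodule K V} {R : ℤ → Module.End K V → Prop} (hR : OpAlg gr R)

include hR

lemma PolyIn.C {d : ℤ} {T : Module.End K V} (hT : R d T) : PolyIn R d (C T) := by
  intro k
  rw [coeff_C]
  split_ifs
  · exact hT
  · exact hR.zero d

lemma PolyIn.add {d : ℤ} {p q : (Module.End K V)[X]} (hp : PolyIn R d p) (hq : PolyIn R d q) :
    PolyIn R d (p + q) := fun k => by
  rw [coeff_add]; exact hR.add (hp k) (hq k)

lemma PolyIn.sub {d : ℤ} {p q : (Module.End K V)[X]} (hp : PolyIn R d p) (hq : PolyIn R d q) :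
    PolyIn R d (p - q) := fun k => by
  rw [coeff_sub]; exact hR.sub (hp k) (hq k)

lemma PolyIn.sum {ι : Type*} {d : ℤ} {s : Finset ι} {p : ι → (Module.End K V)[X]}
    (hp : ∀ i ∈ s, PolyIn R d (p i)) : PolyIn R d (∑ i ∈ s, p i) := fun k => by
  rw [finsetSum_coeff]; exact hR.sum (fun i hi => hp i hi k)

lemma PolyIn.mul {d e : ℤ} {p q : (Module.End K V)[X]} (hp : PolyIn R d p) (hq : PolyIn R e q) :
    PolyIn R (d + e) (p * q) := fun k => by
  rw [coeff_mul]; exact hR.sum (fun i _ => hR.mul (hp _) (hq _))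

lemma PolyIn.cast {d e : ℤ} {p : (Module.End K V)[X]} (hp : PolyIn R d p) (h : d = e) :
    PolyIn R e p := h ▸ hp

lemma PolyIn.zero (d : ℤ) : PolyIn R d (0 : (Module.End K V)[X]) := fun k => by
  rw [coeff_zero]; exact hR.zero d

lemma PolyIn.one : PolyIn R 0 (1 : (Module.End K V)[X]) := by
  have := PolyIn.C hR hR.one
  rwa [map_one] at this

lemma PolyIn.pow {d : ℤ} {p : (Module.End K V)[X]} (hp : PolyIn R d p) (m : ℕ) :
    PolyIn R (m * d) (p ^ m) := by
  induction m with
  | zero => simpa using PolyIn.one hR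
  | succ m ih =>
    rw [pow_succ]
    exact PolyIn.cast hR (PolyIn.mul hR ih hp) (by push_cast; ring)

lemma PolyIn.qp (f : ℚ[X]) : PolyIn R 0 (qp f) := by
  intro k
  rw [Fib.qp, coeff_map, RingHom.comp_apply, Algebra.algebraMap_eq_smul_one]
  exact hR.smul _ hR.one

lemma PolyIn.X_pow_mul {d : ℤ} {p : (Module.End K V)[X]} (hp : PolyIn R d p) (m : ℕ) :
    PolyIn R d (X ^ m * p) := by
  intro k
  rw [coeff_X_pow_mul']
  split_ifs
  · exact hp _
  · exact hR.zero d

lemma PolyIn.smul {d : ℤ} {p : (Module.End K V)[X]} (hp : PolyIn R d p) (q : ℚ) :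
    PolyIn R d (Fib.qp (Polynomial.C q) * p) :=
  PolyIn.cast hR (PolyIn.mul hR (PolyIn.qp hR _) hp) (by ring)

/-- The trace of a polynomial family. -/
lemma exists_trace (htr : ∀ y, R 0 y → ∃ q : ℚ, LinearMap.trace K V y = q)
    {p : (Module.End K V)[X]} (hp : PolyIn R 0 p) :
    ∃ f : ℚ[X], ∀ s : K, LinearMap.trace K V (evs s p) = (f.map (algebraMap ℚ K)).eval s := by
  choose q hq using fun k => htr _ (hp k)
  refine ⟨∑ k ∈ range (p.natDegree + 1), Polynomial.C (q k) * X ^ k, fun s => ?_⟩
  rw [evs_eq_sum, map_sum, Polynomial.map_sum, eval_finsetSum]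
  apply Finset.sum_congr rfl
  intro k _
  rw [map_smul, hq, smul_eq_mul, Polynomial.map_mul, Polynomial.map_pow, map_C, map_X, eval_mul,
    eval_C, eval_pow, eval_X, mul_comm]
  rfl

lemma exists_flE (htr : ∀ y, R 0 y → ∃ q : ℚ, LinearMap.trace K V y = q)
    {p : (Module.End K V)[X]} (hp : PolyIn R 0 p) (k : ℕ) :
    ∃ G : (Module.End K V)[X], PolyIn R 0 G ∧ ∀ s : K, evs s G = flE (evs s p) k := by
  induction k with
  | zero => exact ⟨1, PolyIn.one hR, fun s => by rw [map_one]; rfl⟩
  | succ k ih =>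
    obtain ⟨G, hG, hG'⟩ := ih
    have hpG : PolyIn R 0 (p * G) := PolyIn.cast hR (PolyIn.mul hR hp hG) (by ring)
    obtain ⟨f, hf⟩ := exists_trace hR htr hpG
    refine ⟨p * G - Fib.qp (f * Polynomial.C (((k : ℚ) + 1)⁻¹)), PolyIn.sub hR hpG (PolyIn.qp hR _),
      fun s => ?_⟩
    rw [map_sub, evs_qp, flE, ← hG', ← map_mul, hf, Polynomial.map_mul, map_C, eval_mul, eval_C,
      div_eq_mul_inv]
    congr 3
    push_cast
    rfl

lemma commute_flE (E : Module.End K V) (k : ℕ) : Commute E (flE E k) := by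
  induction k with
  | zero => exact Commute.one_right E
  | succ k ih =>
    rw [flE]
    exact ((Commute.refl E).mul_right ih).sub_right ((Commute.one_right E).smul_right _)

/-- **Inverses of polynomial families.** -/
theorem exists_adj [Module.Finite K V] (htr : ∀ y, R 0 y → ∃ q : ℚ, LinearMap.trace K V y = q)
    {p : (Module.End K V)[X]} (hp : PolyIn R 0 p) :
    ∃ (G : (Module.End K V)[X]) (f : ℚ[X]), PolyIn R 0 G ∧
      (∀ s : K, evs s G * evs s p = ((f.map (algebraMap ℚ K)).eval s) • 1) ∧
      ∀ s : K, Function.Injective (evs s p) → (f.map (algebraMap ℚ K)).eval s ≠ 0 := by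
  by_cases hd : 1 ≤ Module.finrank K V
  · obtain ⟨G, hG, hG'⟩ := exists_flE hR htr hp (Module.finrank K V - 1)
    obtain ⟨f, hf⟩ := exists_trace hR htr (PolyIn.cast hR (PolyIn.mul hR hp hG) (by ring))
    have key : ∀ s : K, ((f * Polynomial.C ((Module.finrank K V : ℚ)⁻¹)).map
        (algebraMap ℚ K)).eval s = LinearMap.trace K V (evs s p * flE (evs s p)
          (Module.finrank K V - 1)) / (Module.finrank K V : K) := by
      intro s
      rw [← hG', ← map_mul, hf, Polynomial.map_mul, map_C, eval_mul, eval_C, div_eq_mul_inv]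
      congr 1
      push_cast
      rfl
    refine ⟨G, f * Polynomial.C ((Module.finrank K V : ℚ)⁻¹), hG, fun s => ?_, fun s hs => ?_⟩
    · rw [key, hG', ← (commute_flE hR (evs s p) _).eq]
      exact (flE_last (evs s p) rfl hd).1
    · rw [key]
      exact (flE_last (evs s p) rfl hd).2 hs
  · have h0 : Module.finrank K V = 0 := by omega
    have : Subsingleton V := Module.finrank_zero_iff.1 h0
    refine ⟨0, 1, PolyIn.zero hR 0, fun s => ?_, fun s _ => ?_⟩
    · exact Subsingleton.elim _ _
    · rw [Polynomial.map_one, eval_one]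
      exact one_ne_zero

end

end Pool.Agent.Y140.Fib
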