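import Pool.Agent.Y140.Fib.LamLow

/-!
# Splitting the filtration by projectors in the algebra
-/

open Finset Polynomial

set_option linter.unusedSectionVars false

namespace Pool.Agent.Y140.Fib

open Pool.Agent.H914 Pool.Agent.H447 Pool.Agent.W498.Dom

variable {K : Type*} [Field K] [CharZero K] {V : Type*} [AddCommGroup V] [Module K V]
  {gr P : ℕ → Submodule K V} (iP : DirectSum.IsInternal P) {m : ℕ}
  (bP : ∀ i, 2 * m + 1 ≤ i → P i = ⊥)

omit [CharZero K] in
lemma Shifts.pow {δ : ℤ} {T : Module.End K V} (hT : Shifts P δ T) (k : ℕ) :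
    Shifts P (k * δ) (T ^ k) := by
  induction k with
  | zero => simpa using shifts_one
  | succ k ih =>
    rw [pow_succ]
    exact (ih.mul hT).cast (by push_cast; ring)

omit [CharZero K] in
lemma Shifts.sum {ι : Type*} {s : Finset ι} {δ : ℤ} {T : ι → Module.End K V}
    (hT : ∀ i ∈ s, Shifts P δ (T i)) : Shifts P δ (∑ i ∈ s, T i) := by
  intro a v hv
  rw [LinearMap.sum_apply]
  exact Submodule.sum_mem _ (fun i hi => hT i hi a v hv)

lemma Shifts.ev {N : Module.End K V} (hN : Shifts P 0 N) (q : ℚ[X]) : Shifts P 0 (ev N q) := by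
  induction q using Polynomial.induction_on' with
  | add a b ha hb => rw [map_add]; exact ha.add hb
  | monomial r c =>
    rw [← C_mul_X_pow_eq_monomial, map_mul, map_pow, ev_C, ev_X, smul_mul_assoc, one_mul]
    exact ((hN.pow r).cast (by ring)).smul _

include bP

omit [CharZero K] in
lemma upTo_neg {a : ℤ} (ha : a < 0) : upTo P a = ⊥ := by
  rw [eq_bot_iff]
  refine iSup_le fun q => iSup_le fun hq => ?_
  omega

omit [CharZero K] in
lemma upTo_top (iP : DirectSum.IsInternal P) : upTo P (2 * m) = ⊤ := by
  rw [eq_top_iff, ← iP.submodule_iSup_eq_top]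
  refine iSup_le fun q => ?_
  by_cases hq : q ≤ 2 * m
  · exact piece_le_upTo (by exact_mod_cast hq)
  · rw [bP q (by omega)]; exact bot_le

lemma lead_pow {δ : ℤ} {T : Module.End K V} (hT : Shifts P δ T) (k : ℕ) :
    lead iP m (k * δ) (T ^ k) = lead iP m δ T ^ k := by
  induction k with
  | zero =>
    rw [pow_zero, pow_zero, Nat.cast_zero, zero_mul]
    exact lead_of_isHom iP bP isHom_one
  | succ k ih =>
    rw [pow_succ, pow_succ, show ((k + 1 : ℕ) : ℤ) * δ = k * δ + δ by push_cast; ring,
      lead_mul iP bP (hT.pow k) hT, ih]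

lemma lead_ev {N : Module.End K V} (hN : Shifts P 0 N) (q : ℚ[X]) :
    lead iP m 0 (ev N q) = ev (lead iP m 0 N) q := by
  induction q using Polynomial.induction_on' with
  | add a b ha hb => rw [map_add, map_add, lead_add, ha, hb]
  | monomial r c =>
    rw [← C_mul_X_pow_eq_monomial, map_mul, map_pow, ev_C, ev_X, map_mul, map_pow, ev_C, ev_X,
      smul_mul_assoc, one_mul, smul_mul_assoc, one_mul, lead_smul, ← lead_pow iP bP hN, mul_zero]

/-- Orthogonal idempotents which induce the projectors on the graded space. -/
lemma splitBy_of_lead {π : ℕ → Module.End K V} (h0 : ∀ p, 2 * m + 1 ≤ p → π p = 0)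
    (hmul : ∀ p q, π p * π q = if p = q then π p else 0) (hsum : ∑ p ∈ range (2 * m + 1), π p = 1)
    (hs : ∀ p, Shifts P 0 (π p)) (hl : ∀ p < 2 * m + 1, lead iP m 0 (π p) = proj iP p) :
    SplitBy P m π := by
  have drop : ∀ p < 2 * m + 1, ∀ a : ℤ, a ≠ p → ∀ v ∈ upTo P a, π p v ∈ upTo P (a - 1) := by
    intro p hp a hap v hv
    refine upTo_induction (p := fun v => π p v ∈ upTo P (a - 1)) hv ?_ ?_ ?_
    · intro q hq x hx
      have h1 := lead_sub_mem iP bP (hs p) hx
      rw [hl p hp] at h1
      by_cases hqp : q = p
      · subst hqp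
        have h2 := hs q q x (piece_le_upTo le_rfl hx)
        rw [add_zero] at h2
        exact upTo_mono (by omega) h2
      · rw [proj_ne iP hx hqp, sub_zero] at h1
        exact upTo_mono (by omega) h1
    · rw [map_zero]; exact Submodule.zero_mem _
    · intro x y hx hy
      rw [map_add]; exact Submodule.add_mem _ hx hy
  have idem : ∀ (p : ℕ) (v : V), π p (π p v) = π p v := by
    intro p v
    rw [← Module.End.mul_apply, hmul, if_pos rfl]
  have hrange : ∀ (p : ℕ) (v : V), π p v ∈ upTo P p := by
    intro p v
    by_cases hp : p < 2 * m + 1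
    · have key : ∀ n : ℕ, π p v ∈ upTo P (p + n) → π p v ∈ upTo P p := by
        intro n
        induction n with
        | zero => intro h; simpa using h
        | succ n ih =>
          intro h
          apply ih
          have h1 := drop p hp _ (by omega) _ h
          rw [idem] at h1
          exact upTo_mono (by push_cast; omega) h1
      apply key (2 * m)
      have : π p v ∈ upTo P (2 * m) := by rw [upTo_top bP iP]; trivial
      exact upTo_mono (by push_cast; omega) this
    · rw [h0 p (by omega)]; exact Submodule.zero_mem _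
  have hzero : ∀ (p : ℕ) (v : V), ∀ a : ℤ, a < p → π p v ∈ upTo P a → π p v = 0 := by
    intro p v
    by_cases hp : p < 2 * m + 1
    swap
    · intro a _ _; rw [h0 p (by omega)]; rfl
    have key : ∀ n : ℕ, (n : ℤ) - 1 < p → π p v ∈ upTo P (n - 1) → π p v = 0 := by
      intro n
      induction n with
      | zero =>
        intro _ h
        rw [upTo_neg bP (by norm_num)] at h
        exact (Submodule.mem_bot _).1 h
      | succ n ih =>
        intro hn h
        apply ih (by push_cast at hn; omega)
        have h1 := drop p hp _ (by omega) _ h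
        rw [idem] at h1
        exact upTo_mono (by push_cast; omega) h1
    intro a ha h
    by_cases ha0 : a < 0
    · rw [upTo_neg bP ha0] at h
      exact (Submodule.mem_bot _).1 h
    · obtain ⟨n, hn⟩ := Int.eq_ofNat_of_zero_le (not_lt.1 ha0)
      apply key (n + 1) (by push_cast; omega)
      rw [hn] at h
      exact upTo_mono (by push_cast; omega) h
  refine ⟨hmul, hsum, fun a => le_antisymm ?_ ?_⟩
  · intro v hv
    have h1 : v = ∑ p ∈ range (2 * m + 1), π p v := by
      rw [← LinearMap.sum_apply, hsum]; rfl
    rw [h1]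
    apply Submodule.sum_mem
    intro p _
    by_cases hpa : (p : ℤ) ≤ a
    · exact piece_le_upTo (P := fun p => LinearMap.range (π p)) hpa ⟨v, rfl⟩
    · have h2 := hs p a v hv
      rw [add_zero] at h2
      rw [hzero p v a (by omega) h2]
      exact Submodule.zero_mem _
  · refine iSup_le fun p => iSup_le fun hp => ?_
    rintro _ ⟨v, rfl⟩
    exact upTo_mono hp (hrange p v)

/-- **The filtration is split by projectors in the algebra.** -/
theorem exists_split [Module.Finite K V] {R : ℤ → Module.End K V → Prop} (hR : OpAlg gr R)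
    {Pj : ℕ → Module.End K V} (hPj : ∀ i, R 0 (Pj i)) (hs : ∀ i, Shifts P 0 (Pj i))
    (hl : ∀ i, lead iP m 0 (Pj i) = proj iP i) :
    ∃ π : ℕ → Module.End K V, (∀ i, R 0 (π i)) ∧ SplitBy P m π := by
  set N : Module.End K V := ∑ i ∈ range (2 * m + 1), ((node m i : ℚ) : K) • Pj i with hN
  have hNR : R 0 N := hR.sum (fun i _ => hR.smul _ (hPj i))
  have hNs : Shifts P 0 N := Shifts.sum (fun i _ => (hs i).smul _)
  have hNl : lead iP m 0 N = wt iP m := by
    rw [wt, scal_eq_sum iP bP, hN]
    have h1 : ∀ s : Finset ℕ, lead iP m 0 (∑ i ∈ s, ((node m i : ℚ) : K) • Pj i) =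
        ∑ i ∈ s, ((node m i : ℚ) : K) • proj iP i := by
      intro s
      classical
      induction s using Finset.induction_on with
      | empty => rw [Finset.sum_empty, Finset.sum_empty, lead_zero]
      | insert a s ha ih => rw [Finset.sum_insert ha, Finset.sum_insert ha, lead_add, lead_smul,
          ih, hl]
    exact h1 _
  -- a power of the nodal polynomial vanishes on `N`
  have hnod : Shifts P (-1) (ev N (nodal m)) := by
    rw [shifts_iff]
    intro p v hv
    by_cases hp : p < 2 * m + 1
    · have hdvd : (X - C (node m p)) ∣ nodal m := by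
        have := Finset.dvd_prod_of_mem (fun i => (X - C (node m i) : ℚ[X])) (Finset.mem_range.2 hp)
        simpa [nodal] using this
      obtain ⟨g, hg⟩ := hdvd
      rw [hg, mul_comm, map_mul, Module.End.mul_apply]
      have h1 : ev N (X - C (node m p)) v ∈ upTo P (p + -1) := by
        rw [map_sub, ev_X, ev_C, LinearMap.sub_apply, LinearMap.smul_apply, Module.End.one_apply]
        have h2 := lead_sub_mem iP bP hNs hv
        rw [hNl, wt, scal_apply iP _ hv] at h2
        exact upTo_mono (by omega) h2
      have h3 := hNs.ev g _ _ h1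
      rwa [add_zero] at h3
    · rw [bP p (by omega)] at hv
      rw [(Submodule.mem_bot _).1 hv, map_zero]
      exact Submodule.zero_mem _
  have hzero : ev N (nodal m ^ (2 * m + 1)) = 0 := by
    rw [map_pow]
    apply LinearMap.ext
    intro v
    have h1 : v ∈ upTo P (2 * m) := by rw [upTo_top bP iP]; trivial
    have h2 := hnod.pow (2 * m + 1) _ v h1
    rw [upTo_neg bP (by push_cast; omega)] at h2
    rw [(Submodule.mem_bot _).1 h2, LinearMap.zero_apply]
  refine ⟨fun p => if p < 2 * m + 1 then ev N (herm m (2 * m + 1) p) else 0, ?_, ?_⟩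
  · intro i
    dsimp only
    split_ifs
    · exact hR.ev hNR _
    · exact hR.zero 0
  · apply splitBy_of_lead iP bP
    · intro p hp
      rw [if_neg (by omega)]
    · intro p q
      by_cases hp : p < 2 * m + 1
      · rw [if_pos hp]
        by_cases hpq : p = q
        · subst hpq
          rw [if_pos hp, if_pos rfl, ← map_mul, ← sub_eq_zero, ← map_sub]
          exact ev_eq_zero_of_dvd (herm_sq m (2 * m + 1)) hzero
        · rw [if_neg hpq]
          split_ifs
          · rw [← map_mul]
            exact ev_eq_zero_of_dvd (herm_mul m (2 * m + 1) (Finset.mem_range.2 hp) hpq) hzero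
          · rw [mul_zero]
      · rw [if_neg hp, zero_mul]
        split_ifs <;> rfl
    · have h1 : ∑ p ∈ range (2 * m + 1), (if p < 2 * m + 1 then
          ev N (herm m (2 * m + 1) p) else 0) = ev N (∑ p ∈ range (2 * m + 1),
            herm m (2 * m + 1) p) := by
        rw [map_sum]
        apply Finset.sum_congr rfl
        intro p hp
        rw [if_pos (Finset.mem_range.1 hp)]
      rw [h1, ← sub_eq_zero, ← map_one (ev N), ← map_sub]
      exact ev_eq_zero_of_dvd (herm_sum m (2 * m + 1)) hzero
    · intro p
      split_ifs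
      · exact hNs.ev _
      · exact shifts_zero _
    · intro p hp
      rw [if_pos hp, lead_ev iP bP hNs, hNl]
      exact ev_wt_herm iP bP (by omega) (Finset.mem_range.2 hp)

end Pool.Agent.Y140.Fib
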